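import Mathlib

set_option autoImplicit false

open Polynomial

/-! Project KT (MP_a849c1_nt, frozen statement S18074): there is no complete bipartite graph
K_{17,17} of positive integers with all a*b+1 perfect squares. Definitions and statements. -/

namespace Pool.Agent.W789.KT

/-- The generalised binomial coefficient (k+1/2 choose r). -/
noncomputable def bs (k r : ℕ) : ℝ :=
  ∏ i ∈ Finset.range r, (((k : ℝ) + 1 / 2 - (i : ℝ)) / ((i : ℝ) + 1))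

/-- Total number of nodes. -/
def tot (n : Fin 3 → ℕ) : ℕ := n 0 + n 1 + n 2

/-- The value of the functional with weights `w` on the data `tau` (multiplicities `n`). -/
noncomputable def val (w : Fin 3 → ℕ → ℝ) (n : Fin 3 → ℕ) (tau : Fin 3 → ℕ → ℝ) : ℝ :=
  ∑ j : Fin 3, ∑ r ∈ Finset.range (n j), w j r * tau j r

/-- The polynomial `R` has the Taylor data `tau` at the points `al` (to order `n`). -/
def Mat (al : Fin 3 → ℝ) (n : Fin 3 → ℕ) (tau : Fin 3 → ℕ → ℝ) (R : ℝ[X]) : Prop :=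
  ∀ j : Fin 3, ∀ r : ℕ, r < n j → (taylor (al j) R).coeff r = tau j r

/-- The integer nodes as real numbers. -/
def rl (al : Fin 3 → ℤ) : Fin 3 → ℝ := fun j => (al j : ℝ)

/-- Weights of the divided difference with multiplicities `n`: bounded, with denominator
dividing a power of `Dl`, and equal to the leading coefficient of the interpolating polynomial. -/
structure IsW (al : Fin 3 → ℤ) (Dl : ℤ) (n : Fin 3 → ℕ) (w : Fin 3 → ℕ → ℝ) : Prop where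
  abs_le : ∑ j : Fin 3, ∑ r ∈ Finset.range (n j), |w j r| ≤ 2 ^ (tot n - 1)
  int : ∀ j : Fin 3, ∀ r : ℕ, r < n j → ∃ z : ℤ, (Dl : ℝ) ^ (tot n - 1) * w j r = (z : ℝ)
  interp : ∀ tau : Fin 3 → ℕ → ℝ, ∃ R : ℝ[X], R.natDegree < tot n ∧ Mat (rl al) n tau R ∧
    R.coeff (tot n - 1) = val w n tau

/-- One node only. -/
def WBaseStm : Prop := ∀ (al : Fin 3 → ℤ) (Dl : ℤ) (n : Fin 3 → ℕ) (j : Fin 3),
  0 < n j → (∀ i, i ≠ j → n i = 0) → ∃ w, IsW al Dl n w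

/-- The recursion for divided differences. -/
def WStepStm : Prop := ∀ (al : Fin 3 → ℤ) (Dl : ℤ) (n : Fin 3 → ℕ) (j l : Fin 3),
  Function.Injective al → (∀ i i', i ≠ i' → (al i - al i') ∣ Dl) →
  j ≠ l → 0 < n j → 0 < n l →
  (∃ w, IsW al Dl (Function.update n j (n j - 1)) w) →
  (∃ w, IsW al Dl (Function.update n l (n l - 1)) w) → ∃ w, IsW al Dl n w

/-- Existence of the weights. -/
def WStm : Prop := ∀ (al : Fin 3 → ℤ) (Dl : ℤ) (n : Fin 3 → ℕ),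
  Function.Injective al → (∀ i i', i ≠ i' → (al i - al i') ∣ Dl) → 1 ≤ tot n →
  ∃ w, IsW al Dl n w

/-- Uniqueness of the interpolating polynomial. -/
def UniqStm : Prop := ∀ (al : Fin 3 → ℝ) (n : Fin 3 → ℕ) (R : ℝ[X]),
  Function.Injective al → R.natDegree < tot n → Mat al n (fun _ _ => 0) R → R = 0

/-- Taylor data of the monomial X^m. -/
noncomputable def mu (al : Fin 3 → ℤ) (m : ℕ) : Fin 3 → ℕ → ℝ :=
  fun j r => (m.choose r : ℝ) * (al j : ℝ) ^ (m - r)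

/-- The functional on monomials. -/
def MonoStm : Prop := ∀ (al : Fin 3 → ℤ) (Dl : ℤ) (n : Fin 3 → ℕ) (w : Fin 3 → ℕ → ℝ) (m : ℕ),
  Function.Injective al → IsW al Dl n w →
  (m + 1 < tot n → val w n (mu al m) = 0) ∧
  (∀ M : ℝ, 1 ≤ M → (∀ j, |(al j : ℝ)| ≤ M) →
    |val w n (mu al m)| ≤ 2 ^ (tot n - 1) * (2 * M) ^ m)

/-- The binomial series. -/
def BinStm : Prop := ∀ (k r : ℕ) (N a : ℝ), r ≤ k → 0 < N → 0 ≤ a → 4 * a ≤ N →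
  HasSum (fun m : ℕ => bs k m * (N ^ k / N ^ m) * ((m.choose r : ℝ) * a ^ (m - r)))
    (bs k r * (N + a) ^ (k - r) * Real.sqrt (1 + a / N))

def BsAbsStm : Prop := ∀ k r : ℕ, |bs k r| ≤ 2 ^ (k + 1)

def BsIntStm : Prop := ∀ k r : ℕ, ∃ z : ℤ, (4 : ℝ) ^ r * bs k r = (z : ℝ)

/-- Taylor data of (N+z)^(k+1/2)/sqrt N. -/
noncomputable def tg (k : ℕ) (N : ℝ) (al : Fin 3 → ℤ) : Fin 3 → ℕ → ℝ :=
  fun j r => bs k r * (N + al j) ^ (k - r) * Real.sqrt (1 + (al j : ℝ) / N)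

/-- Smallness of the divided difference. -/
def ErrStm : Prop := ∀ (al : Fin 3 → ℤ) (Dl : ℤ) (n : Fin 3 → ℕ) (w : Fin 3 → ℕ → ℝ)
  (M N : ℝ) (k : ℕ), Function.Injective al → IsW al Dl n w → tot n = 3 * k + 1 →
  (∀ j, n j ≤ k + 1) → (∀ j, 1 ≤ al j) → (∀ j, (al j : ℝ) ≤ M) → 4 * M ≤ N →
  |val w n (tg k N al)| ≤ 4 * (128 * M ^ 3 / N ^ 2) ^ k

/-- The key nonvanishing argument. -/
def NSStm : Prop := ∀ (k : ℕ) (al : Fin 3 → ℝ) (N : ℝ) (q : Fin 3 → ℝ) (R : ℝ[X]),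
  1 ≤ k → Function.Injective al → (∀ j, 0 < N + al j) → R.natDegree < 3 * k →
  (∀ j : Fin 3, ∀ r : ℕ, r ≤ k →
    (taylor (al j) R).coeff r = q j * (bs k r * (N + al j) ^ (k - r))) → q = 0

/-- Multiplicities k, with k+1 at the node i. -/
def nn (k : ℕ) (i : Fin 3) : Fin 3 → ℕ := fun j => if j = i then k + 1 else k

/-- The data q_j C(s,r) (N+al_j)^(k-r). -/
noncomputable def tq (k : ℕ) (N : ℝ) (al : Fin 3 → ℤ) (q : Fin 3 → ℝ) : Fin 3 → ℕ → ℝ :=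
  fun j r => q j * (bs k r * (N + al j) ^ (k - r))

def IndepStm : Prop := ∀ (k : ℕ) (al : Fin 3 → ℤ) (Dl : ℤ) (N : ℝ) (q : Fin 3 → ℝ)
  (w : Fin 3 → Fin 3 → ℕ → ℝ), 1 ≤ k → Function.Injective al → (∀ j, 0 < N + al j) →
  (∀ i, IsW al Dl (nn k i) (w i)) → (∀ i, val (w i) (nn k i) (tq k N al q) = 0) → q = 0

/-- Simultaneous Pade approximation. -/
def PadeStm : Prop := ∀ (al : Fin 3 → ℤ) (M N : ℤ), Function.Injective al →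
  (∀ j, 1 ≤ al j ∧ al j ≤ M) → 4 * M ≤ N → ∀ k : ℕ, 1 ≤ k →
  ∃ P : Fin 3 → Fin 3 → ℤ,
    (∀ q : Fin 3 → ℤ, q ≠ 0 → ∃ i, ∑ j, P i j * q j ≠ 0) ∧
    (∀ i j, |(P i j : ℝ)| ≤ 2 * (128 * (M : ℝ) ^ 9 * (N : ℝ)) ^ k) ∧
    (∀ i, |∑ j, (P i j : ℝ) * Real.sqrt (1 + (al j : ℝ) / (N : ℝ))|
        ≤ 4 * (512 * (M : ℝ) ^ 12 / (N : ℝ) ^ 2) ^ k)

/-- The solution d gives a good approximation. Here p = a 0 * a 1 * a 2 and
al j = p / a j. -/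
def ApproxStm : Prop := ∀ (a : Fin 3 → ℕ) (al : Fin 3 → ℕ) (e d : ℕ) (s x : Fin 3 → ℕ) (p : ℕ),
  (∀ j, 0 < a j) → 0 < e → 0 < d → 0 < p → (∀ j, al j * a j = p) →
  (∀ j, a j * e + 1 = s j ^ 2) → (∀ j, a j * d + 1 = x j ^ 2) →
  ∀ j, 0 ≤ ((al j * s j * x j : ℕ) : ℝ)
      - (p : ℝ) * Real.sqrt ((e : ℝ) * d) * Real.sqrt (1 + (al j : ℝ) / ((p : ℝ) * e)) ∧
    ((al j * s j * x j : ℕ) : ℝ)
      - (p : ℝ) * Real.sqrt ((e : ℝ) * d) * Real.sqrt (1 + (al j : ℝ) / ((p : ℝ) * e))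
      ≤ (p : ℝ) * Real.sqrt ((e : ℝ) / d)

/-- Choice of the level k. -/
def ChoiceStm : Prop := ∀ e d : ℕ, 2 ≤ e → e ^ 18 ≤ d →
  ∃ k : ℕ, 1 ≤ k ∧ d ^ 2 * e ^ 3 < e ^ (7 * k) ∧ e ^ (5 * k + 3) < d ^ 2

/-- First numerical estimate. -/
def NumAStm : Prop := ∀ (H e d k p : ℕ), 1 ≤ H → 1 ≤ k → 2 ^ 36 * H ^ 96 ≤ e → 1 ≤ d →
  1 ≤ p → p ≤ H ^ 3 → d ^ 2 * e ^ 3 < e ^ (7 * k) →
  (p : ℝ) * Real.sqrt ((e : ℝ) * d) *
    (4 * (512 * ((H : ℝ) ^ 2) ^ 12 / ((p : ℝ) * e) ^ 2) ^ k) < 1 / 2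

/-- Second numerical estimate. -/
def NumBStm : Prop := ∀ (H e d k p : ℕ), 1 ≤ H → 1 ≤ k → 2 ^ 36 * H ^ 96 ≤ e → 1 ≤ d →
  1 ≤ p → p ≤ H ^ 3 → e ^ (5 * k + 3) < d ^ 2 →
  3 * (2 * (128 * ((H : ℝ) ^ 2) ^ 9 * ((p : ℝ) * e)) ^ k *
    ((p : ℝ) * Real.sqrt ((e : ℝ) / d))) < 1 / 2

/-- Two solutions e, d of a_j z + 1 = square (j = 0,1,2), e large: d < e^18. -/
def TStm : Prop := ∀ (a : Fin 3 → ℕ) (H e d : ℕ), Function.Injective a →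
  (∀ j, 0 < a j ∧ a j ≤ H) → 2 ^ 36 * H ^ 96 ≤ e → e ^ 18 ≤ d →
  (∀ j, IsSquare (a j * e + 1)) → (∀ j, IsSquare (a j * d + 1)) → False

/-- The matrix of square roots. -/
noncomputable def mx (a b : Fin 3 → ℝ) : Matrix (Fin 3) (Fin 3) ℝ :=
  fun i j => Real.sqrt (a i * b j + 1)

def DetNZStm : Prop := ∀ a b : Fin 3 → ℝ, (∀ i, 0 < a i) → (∀ i, 0 < b i) →
  Function.Injective a → Function.Injective b → (mx a b).det ≠ 0

/-- Exact factorisation of a 3x3 determinant of square roots: with g = sqrt(1 + A B). -/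
def FacStm : Prop := ∀ A B : Fin 3 → ℝ, (∀ i, 0 < A i) → (∀ i, 0 < B i) →
  ∃ ka om : Fin 3 → ℝ, (∀ i, 0 ≤ ka i ∧ ka i ≤ 1 / 2) ∧ (∀ i, 0 ≤ om i ∧ om i ≤ 1 / 8) ∧
    (Matrix.of (fun i j : Fin 3 => Real.sqrt (1 + A i * B j))).det
      = (B 0 - B 2) * (B 1 - B 2) * (B 0 - B 1) *
        (Matrix.of ![fun i => A i * ka i, fun i => A i ^ 2 * om i,
          fun i => Real.sqrt (1 + A i * B 2)]).det

def DetBoundStm : Prop := ∀ a b : Fin 3 → ℝ, 1 ≤ a 0 → a 0 < a 1 → a 1 < a 2 →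
  1 ≤ b 0 → b 0 < b 1 → b 1 < b 2 →
  (mx a b).det ^ 2 * ((a 0 * b 0) ^ 3 * (a 1 * b 1)) < a 2 * b 2

/-- Gap principle. -/
def GapStm : Prop := ∀ a b : Fin 3 → ℕ, 0 < a 0 → a 0 < a 1 → a 1 < a 2 →
  0 < b 0 → b 0 < b 1 → b 1 < b 2 → (∀ i j, IsSquare (a i * b j + 1)) →
  (a 0 * b 0) ^ 3 * (a 1 * b 1) < a 2 * b 2

/-- The case b 10 >= a 10. -/
def HalfStm : Prop := ∀ a b : Fin 17 → ℕ, StrictMono a → StrictMono b → 0 < a 0 → 0 < b 0 →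
  (∀ i j, IsSquare (a i * b j + 1)) → a 10 ≤ b 10 → False

def MainStm : Prop := ∀ A B : Finset ℕ, A.card = 17 → B.card = 17 →
  (∀ a ∈ A, 0 < a) → (∀ b ∈ B, 0 < b) → ¬ (∀ a ∈ A, ∀ b ∈ B, IsSquare (a * b + 1))

end Pool.Agent.W789.KT
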