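import Mathlib
import Pool.Agent.W789.KT.Defs

/-! Project KT, part A01: the weights in the case of one node. -/

set_option autoImplicit false

open Polynomial

namespace Pool.Agent.W789.KT.A01

open Pool.Agent.W789.KT

theorem sum_one {n : Fin 3 → ℕ} {j : Fin 3} (h : ∀ i, i ≠ j → n i = 0) (f : Fin 3 → ℕ → ℝ) :
    ∑ i : Fin 3, ∑ r ∈ Finset.range (n i), f i r = ∑ r ∈ Finset.range (n j), f j r := by
  rw [Finset.sum_eq_single j]
  · intro i _ hi
    rw [h i hi]
    simp
  · intro hj
    exact absurd (Finset.mem_univ j) hj

theorem tot_one {n : Fin 3 → ℕ} {j : Fin 3} (h : ∀ i, i ≠ j → n i = 0) : tot n = n j := by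
  have h1 : tot n = ∑ i, n i := by
    rw [Fin.sum_univ_three]
    rfl
  rw [h1, Finset.sum_eq_single j]
  · intro i _ hi
    exact h i hi
  · intro hj
    exact absurd (Finset.mem_univ j) hj

theorem pf : WBaseStm := by
  intro al Dl n j hj h
  have ht := tot_one h
  refine ⟨fun _ r => if r = n j - 1 then 1 else 0, ?_, ?_, ?_⟩
  · rw [sum_one h]
    have h1 : ∑ r ∈ Finset.range (n j), |(if r = n j - 1 then (1 : ℝ) else 0)| = 1 := by
      rw [Finset.sum_eq_single (n j - 1)]
      · simp
      · intro r _ hr
        rw [if_neg hr, abs_zero]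
      · intro hr
        exact absurd (Finset.mem_range.2 (by omega)) hr
    rw [h1]
    exact one_le_pow₀ (by norm_num)
  · intro i r _
    by_cases hr : r = n j - 1
    · exact ⟨Dl ^ (tot n - 1), by simp [hr]⟩
    · exact ⟨0, by simp [hr]⟩
  · intro tau
    let a : ℝ := (al j : ℝ)
    refine ⟨∑ r ∈ Finset.range (n j), C (tau j r) * (X - C a) ^ r, ?_, ?_, ?_⟩
    · have h1 : (∑ r ∈ Finset.range (n j), C (tau j r) * (X - C a) ^ r).natDegree ≤ n j - 1 := by
        refine natDegree_sum_le_of_forall_le _ _ fun r hr => ?_
        have h2 := Finset.mem_range.1 hr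
        refine (natDegree_C_mul_le _ _).trans ?_
        rw [natDegree_pow, natDegree_X_sub_C]
        omega
      omega
    · intro i r hr
      by_cases hi : i = j
      · subst hi
        have h1 : taylor (rl al i) (∑ r ∈ Finset.range (n i), C (tau i r) * (X - C a) ^ r) =
            ∑ r ∈ Finset.range (n i), C (tau i r) * X ^ r := by
          rw [map_sum]
          refine Finset.sum_congr rfl fun r _ => ?_
          rw [taylor_mul, taylor_C, taylor_pow, map_sub, taylor_X, taylor_C]
          congr 2
          change X + C a - C a = X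
          ring
        rw [h1, finsetSum_coeff, Finset.sum_eq_single r]
        · rw [coeff_C_mul, coeff_X_pow, if_pos rfl, mul_one]
        · intro s _ hs
          rw [coeff_C_mul, coeff_X_pow, if_neg (Ne.symm hs), mul_zero]
        · intro hr'
          exact absurd (Finset.mem_range.2 hr) hr'
      · rw [h i hi] at hr
        exact absurd hr (Nat.not_lt_zero r)
    · unfold val
      rw [sum_one h, ht, finsetSum_coeff]
      refine Finset.sum_congr rfl fun r hr => ?_
      have h2 := Finset.mem_range.1 hr
      rw [coeff_C_mul, mul_comm]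
      congr 1
      change ((X - C a) ^ r).coeff (n j - 1) = if r = n j - 1 then 1 else 0
      by_cases hrn : r = n j - 1
      · rw [if_pos hrn, ← hrn]
        have h3 : ((X - C a) ^ r).natDegree = r := by
          rw [natDegree_pow, natDegree_X_sub_C, mul_one]
        have h4 := ((monic_X_sub_C a).pow r).coeff_natDegree
        rwa [h3] at h4
      · rw [if_neg hrn]
        apply coeff_eq_zero_of_natDegree_lt
        rw [natDegree_pow, natDegree_X_sub_C]
        omega

end Pool.Agent.W789.KT.A01
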