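import Mathlib
import Pool.Agent.W789.KT.Defs

set_option autoImplicit false

open Polynomial

/-! Part A02 of the project KT (MP_a849c1_nt): recursion of divided differences. -/

namespace Pool.Agent.W789.KT.A02

open Pool.Agent.W789.KT

theorem tot_update (n : Fin 3 → ℕ) (j : Fin 3) (hj : 0 < n j) :
    tot (Function.update n j (n j - 1)) + 1 = tot n := by
  unfold tot
  fin_cases j
  · simp [Function.update] at hj ⊢
    omega
  · simp [Function.update] at hj ⊢
    omega
  · simp [Function.update] at hj ⊢
    omega

theorem update_le (n : Fin 3 → ℕ) (j i : Fin 3) : Function.update n j (n j - 1) i ≤ n i := by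
  by_cases h : i = j
  · subst h
    simp
  · rw [Function.update_of_ne h]

theorem two_le_tot (n : Fin 3 → ℕ) (j l : Fin 3) (hjl : j ≠ l) (hj : 0 < n j) (hl : 0 < n l) :
    2 ≤ tot n := by
  have h1 := tot_update n j hj
  have h2 : 0 < Function.update n j (n j - 1) l := by
    rw [Function.update_of_ne hjl.symm]
    exact hl
  have h3 := tot_update (Function.update n j (n j - 1)) l h2
  omega

theorem sum_res (a b : ℕ) (h : a ≤ b) (f : ℕ → ℝ) :
    ∑ r ∈ Finset.range b, (if r < a then f r else 0) = ∑ r ∈ Finset.range a, f r := by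
  rw [← Finset.sum_filter]
  congr 1
  ext r
  simp only [Finset.mem_filter, Finset.mem_range]
  omega

theorem taylor_coeff_mul (a b c : ℝ) (Q : ℝ[X]) (r : ℕ) :
    (taylor a (C c * ((X - C b) * Q))).coeff r =
      c * ((if r = 0 then 0 else (taylor a Q).coeff (r - 1)) + (a - b) * (taylor a Q).coeff r) := by
  have h : taylor a (C c * ((X - C b) * Q)) =
      C c * (X * taylor a Q + C (a - b) * taylor a Q) := by
    rw [taylor_mul, taylor_mul, taylor_C, map_sub, taylor_X, taylor_C, C_sub]
    ring
  rw [h, coeff_C_mul, coeff_add, coeff_C_mul]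
  rcases r with _ | r
  · simp
  · simp [coeff_X_mul]

theorem pf : WStepStm := by
  intro al Dl n j l hal hDl hjl hj hl ⟨w1, h1⟩ ⟨w2, h2⟩
  set n1 : Fin 3 → ℕ := Function.update n j (n j - 1) with hn1
  set n2 : Fin 3 → ℕ := Function.update n l (n l - 1) with hn2
  have ht1 : tot n1 + 1 = tot n := tot_update n j hj
  have ht2 : tot n2 + 1 = tot n := tot_update n l hl
  have hT : 2 ≤ tot n := two_le_tot n j l hjl hj hl
  have hle1 : ∀ i, n1 i ≤ n i := update_le n j
  have hle2 : ∀ i, n2 i ≤ n i := update_le n l
  have hn1j : n1 j = n j - 1 := by rw [hn1]; simp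
  have hn2l : n2 l = n l - 1 := by rw [hn2]; simp
  have hn1o : ∀ i, i ≠ j → n1 i = n i := fun i hi => by rw [hn1, Function.update_of_ne hi]
  have hn2o : ∀ i, i ≠ l → n2 i = n i := fun i hi => by rw [hn2, Function.update_of_ne hi]
  -- the difference of the nodes
  have hne : al l - al j ≠ 0 := by
    intro h
    exact hjl.symm (hal (sub_eq_zero.mp h))
  set D : ℝ := ((al l - al j : ℤ) : ℝ) with hD
  have hD0 : D ≠ 0 := by
    rw [hD]
    exact_mod_cast hne
  have hD1 : 1 ≤ |D| := by
    rw [hD, ← Int.cast_abs]
    exact_mod_cast Int.one_le_abs hne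
  obtain ⟨m, hm⟩ := hDl l j hjl.symm
  have hmR : (Dl : ℝ) = D * m := by
    rw [hD, hm]
    push_cast
    ring
  set w : Fin 3 → ℕ → ℝ := fun i r =>
    ((if r < n1 i then w1 i r else 0) - (if r < n2 i then w2 i r else 0)) / D with hw
  refine ⟨w, ?_, ?_, ?_⟩
  · -- absolute values
    have hb : ∀ i : Fin 3, ∀ r : ℕ, |w i r| ≤
        (if r < n1 i then |w1 i r| else 0) + (if r < n2 i then |w2 i r| else 0) := by
      intro i r
      have h3 : |w i r| ≤
          |(if r < n1 i then w1 i r else 0) - (if r < n2 i then w2 i r else 0)| := by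
        simp only [hw]
        rw [abs_div]
        exact div_le_self (abs_nonneg _) hD1
      refine h3.trans ((abs_sub _ _).trans ?_)
      apply add_le_add
      · split_ifs <;> simp
      · split_ifs <;> simp
    calc ∑ i : Fin 3, ∑ r ∈ Finset.range (n i), |w i r|
        ≤ ∑ i : Fin 3, ∑ r ∈ Finset.range (n i),
          ((if r < n1 i then |w1 i r| else 0) + (if r < n2 i then |w2 i r| else 0)) :=
          Finset.sum_le_sum fun i _ => Finset.sum_le_sum fun r _ => hb i r
      _ = ∑ i : Fin 3, ∑ r ∈ Finset.range (n1 i), |w1 i r| +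
          ∑ i : Fin 3, ∑ r ∈ Finset.range (n2 i), |w2 i r| := by
          rw [← Finset.sum_add_distrib]
          apply Finset.sum_congr rfl
          intro i _
          rw [Finset.sum_add_distrib, sum_res _ _ (hle1 i) (fun r => |w1 i r|),
            sum_res _ _ (hle2 i) (fun r => |w2 i r|)]
      _ ≤ 2 ^ (tot n1 - 1) + 2 ^ (tot n2 - 1) := add_le_add h1.abs_le h2.abs_le
      _ = 2 ^ (tot n - 1) := by
          have e1 : tot n1 - 1 = tot n - 2 := by omega
          have e2 : tot n2 - 1 = tot n - 2 := by omega
          have e3 : tot n - 1 = (tot n - 2) + 1 := by omega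
          rw [e1, e2, e3, pow_succ]
          ring
  · -- integrality
    intro i r _
    have e1 : tot n1 - 1 = tot n - 2 := by omega
    have e2 : tot n2 - 1 = tot n - 2 := by omega
    have e3 : tot n - 1 = (tot n - 2) + 1 := by omega
    have hz1 : ∃ z : ℤ, (Dl : ℝ) ^ (tot n - 2) * (if r < n1 i then w1 i r else 0) = (z : ℝ) := by
      split_ifs with h
      · obtain ⟨z, hz⟩ := h1.int i r h
        rw [e1] at hz
        exact ⟨z, hz⟩
      · exact ⟨0, by simp⟩
    have hz2 : ∃ z : ℤ, (Dl : ℝ) ^ (tot n - 2) * (if r < n2 i then w2 i r else 0) = (z : ℝ) := by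
      split_ifs with h
      · obtain ⟨z, hz⟩ := h2.int i r h
        rw [e2] at hz
        exact ⟨z, hz⟩
      · exact ⟨0, by simp⟩
    obtain ⟨z1, hz1⟩ := hz1
    obtain ⟨z2, hz2⟩ := hz2
    refine ⟨m * (z1 - z2), ?_⟩
    rw [e3, pow_succ]
    simp only [hw]
    push_cast
    rw [← hz1, ← hz2]
    have hq : (Dl : ℝ) ^ (tot n - 2) * (Dl : ℝ) *
        (((if r < n1 i then w1 i r else 0) - (if r < n2 i then w2 i r else 0)) / D) =
        ((Dl : ℝ) / D) * ((Dl : ℝ) ^ (tot n - 2) * (if r < n1 i then w1 i r else 0) -
          (Dl : ℝ) ^ (tot n - 2) * (if r < n2 i then w2 i r else 0)) := by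
      ring
    rw [hq]
    have hq2 : (Dl : ℝ) / D = m := by
      rw [hmR]
      field_simp
    rw [hq2]
  · -- interpolation
    intro tau
    obtain ⟨R1, hd1, hM1, hc1⟩ := h1.interp tau
    obtain ⟨R2, hd2, hM2, hc2⟩ := h2.interp tau
    have hDal : D = (al l : ℝ) - (al j : ℝ) := by
      rw [hD]
      push_cast
      ring
    set R : ℝ[X] := C (1 / D) * ((X - C (al j : ℝ)) * R1 - (X - C (al l : ℝ)) * R2) with hR
    have hDC : C (1 / D) * (C (al l : ℝ) - C (al j : ℝ)) = (1 : ℝ[X]) := by
      rw [← C_sub, ← hDal, ← C_mul, one_div_mul_cancel hD0, C_1]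
    have hRa : R = R1 + C (1 / D) * ((X - C (al l : ℝ)) * (R1 - R2)) := by
      rw [hR]
      linear_combination R1 * hDC
    have hRb : R = R2 + C (1 / D) * ((X - C (al j : ℝ)) * (R1 - R2)) := by
      rw [hR]
      linear_combination R2 * hDC
    have hsub : ∀ i : Fin 3, ∀ r : ℕ, r < n1 i → r < n2 i →
        (taylor (rl al i) (R1 - R2)).coeff r = 0 := by
      intro i r hr1 hr2
      rw [map_sub, coeff_sub, hM1 i r hr1, hM2 i r hr2, sub_self]
    have hdeg : ∀ (b : ℝ) (Q : ℝ[X]), Q.natDegree < tot n - 1 →
        ((X - C b) * Q).natDegree < tot n := by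
      intro b Q hQ
      have h3 : ((X - C b) * Q).natDegree ≤ (X - C b).natDegree + Q.natDegree := natDegree_mul_le
      rw [natDegree_X_sub_C] at h3
      omega
    have hcoe : ∀ (b : ℝ) (Q : ℝ[X]), Q.natDegree < tot n - 1 →
        ((X - C b) * Q).coeff (tot n - 1) = Q.coeff (tot n - 2) := by
      intro b Q hQ
      have e3 : tot n - 1 = (tot n - 2) + 1 := by omega
      rw [sub_mul, coeff_sub, coeff_C_mul, coeff_eq_zero_of_natDegree_lt hQ, mul_zero, sub_zero,
        e3, coeff_X_mul]
    have hd1' : R1.natDegree < tot n - 1 := by omega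
    have hd2' : R2.natDegree < tot n - 1 := by omega
    refine ⟨R, ?_, ?_, ?_⟩
    · rw [hR]
      refine lt_of_le_of_lt (natDegree_C_mul_le _ _) ?_
      exact lt_of_le_of_lt (natDegree_sub_le _ _) (max_lt (hdeg _ _ hd1') (hdeg _ _ hd2'))
    · intro i r hr
      by_cases hij : i = j
      · -- the node `j`
        subst hij
        have hr2 : r < n2 i := by rw [hn2o i hjl]; exact hr
        rw [hRb, map_add, coeff_add, hM2 i r hr2, taylor_coeff_mul]
        have h0 : rl al i - (al i : ℝ) = 0 := by simp [rl]
        rw [h0, zero_mul, add_zero]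
        rcases r with _ | r
        · simp
        · have h3 : (taylor (rl al i) (R1 - R2)).coeff (r + 1 - 1) = 0 := by
            apply hsub i
            · rw [hn1j]
              omega
            · omega
          rw [h3]
          simp
      · by_cases hil : i = l
        · subst hil
          have hr1 : r < n1 i := by rw [hn1o i hij]; exact hr
          rw [hRa, map_add, coeff_add, hM1 i r hr1, taylor_coeff_mul]
          have h0 : rl al i - (al i : ℝ) = 0 := by simp [rl]
          rw [h0, zero_mul, add_zero]
          rcases r with _ | r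
          · simp
          · have h3 : (taylor (rl al i) (R1 - R2)).coeff (r + 1 - 1) = 0 := by
              apply hsub i
              · omega
              · rw [hn2l]
                omega
            rw [h3]
            simp
        · have hr1 : r < n1 i := by rw [hn1o i hij]; exact hr
          have hr2 : r < n2 i := by rw [hn2o i hil]; exact hr
          rw [hRa, map_add, coeff_add, hM1 i r hr1, taylor_coeff_mul, hsub i r hr1 hr2]
          rcases r with _ | r
          · simp
          · rw [hsub i (r + 1 - 1) (by omega) (by omega)]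
            simp
    · have e1 : tot n1 - 1 = tot n - 2 := by omega
      have e2 : tot n2 - 1 = tot n - 2 := by omega
      rw [e1] at hc1
      rw [e2] at hc2
      rw [hR, coeff_C_mul, coeff_sub, hcoe _ _ hd1', hcoe _ _ hd2', hc1, hc2]
      have hval : val w n tau = (val w1 n1 tau - val w2 n2 tau) / D := by
        unfold val
        rw [← Finset.sum_sub_distrib, Finset.sum_div]
        apply Finset.sum_congr rfl
        intro i _
        rw [← sum_res _ _ (hle1 i) (fun r => w1 i r * tau i r),
          ← sum_res _ _ (hle2 i) (fun r => w2 i r * tau i r), ← Finset.sum_sub_distrib,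
          Finset.sum_div]
        apply Finset.sum_congr rfl
        intro r _
        simp only [hw]
        split_ifs <;> ring
      rw [hval]
      ring

end Pool.Agent.W789.KT.A02
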