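import Mathlib
import Pool.Agent.W789.KT.Defs

set_option autoImplicit false

namespace Pool.Agent.W789.KT.A03

open Pool.Agent.W789.KT

theorem tot_upd (n : Fin 3 → ℕ) (j : Fin 3) (hj : 0 < n j) :
    tot (Function.update n j (n j - 1)) + 1 = tot n := by
  unfold tot
  fin_cases j <;> simp [Function.update] at hj ⊢ <;> omega

theorem tot_two (n : Fin 3 → ℕ) (j l : Fin 3) (hjl : j ≠ l) (hj : 0 < n j) (hl : 0 < n l) :
    2 ≤ tot n := by
  unfold tot
  fin_cases j <;> fin_cases l <;> simp at hjl hj hl <;> omega

theorem pf (hB : WBaseStm) (hS : WStepStm) : WStm := by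
  intro al Dl n hinj hdvd h1
  suffices H : ∀ N, ∀ n : Fin 3 → ℕ, tot n = N → 1 ≤ N → ∃ w, IsW al Dl n w from
    H _ n rfl h1
  intro N
  induction N with
  | zero => intro n _ h2; omega
  | succ N ih =>
    intro n hn _
    by_cases hex : ∃ j l, j ≠ l ∧ 0 < n j ∧ 0 < n l
    · obtain ⟨j, l, hjl, hj, hl⟩ := hex
      have h2 := tot_two n j l hjl hj hl
      have hu := tot_upd n j hj
      have hv := tot_upd n l hl
      exact hS al Dl n j l hinj hdvd hjl hj hl
        (ih _ (by omega) (by omega)) (ih _ (by omega) (by omega))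
    · push Not at hex
      obtain ⟨j, hj⟩ : ∃ j, 0 < n j := by
        by_contra h
        push Not at h
        have h0 := h 0
        have h1 := h 1
        have h2 := h 2
        unfold tot at hn
        omega
      exact hB al Dl n j hj (fun i hi => by
        have := hex j i (Ne.symm hi) hj
        omega)

end Pool.Agent.W789.KT.A03
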