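import Mathlib
import Pool.Agent.W789.KT.Defs

set_option autoImplicit false

open Polynomial

namespace Pool.Agent.W789.KT.A04

open Pool.Agent.W789.KT

theorem pf : UniqStm := by
  intro al n R hal hdeg hmat
  have hdvd : ∀ j ∈ (Finset.univ : Finset (Fin 3)), (X - C (al j)) ^ (n j) ∣ R := by
    intro j _
    rw [Polynomial.X_sub_C_pow_dvd_iff, Polynomial.X_pow_dvd_iff]
    intro d hd
    have := hmat j d hd
    rw [Polynomial.taylor_apply] at this
    exact this
  have hcop : ((Finset.univ : Finset (Fin 3)) : Set (Fin 3)).Pairwise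
      (Function.onFun IsCoprime (fun j => (X - C (al j)) ^ (n j))) := by
    intro i _ j _ hij
    exact IsCoprime.pow (Polynomial.pairwise_coprime_X_sub_C hal hij)
  have hprod := Finset.prod_dvd_of_coprime hcop hdvd
  apply Polynomial.eq_zero_of_dvd_of_natDegree_lt hprod
  rw [Polynomial.natDegree_prod_of_monic _ _ (fun j _ => (monic_X_sub_C (al j)).pow _)]
  have : ∑ j : Fin 3, ((X - C (al j)) ^ (n j) : ℝ[X]).natDegree = tot n := by
    unfold tot
    rw [Fin.sum_univ_three]
    simp
  rw [this]
  exact hdeg

end Pool.Agent.W789.KT.A04
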