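import Mathlib
import Pool.Agent.W789.KT.Defs

set_option autoImplicit false

open Polynomial

/-! The functional on monomials. -/

namespace Pool.Agent.W789.KT.A05

open Pool.Agent.W789.KT

theorem pf (hU : UniqStm) : MonoStm := by
  intro al Dl n w m hal hw
  refine ⟨?_, ?_⟩
  · intro hm
    obtain ⟨R, hR1, hR2, hR3⟩ := hw.interp (mu al m)
    have hinj : Function.Injective (rl al) := by
      intro i j hij
      apply hal
      have : ((al i : ℤ) : ℝ) = ((al j : ℤ) : ℝ) := hij
      exact_mod_cast this
    have h0 : R - X ^ m = 0 := by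
      apply hU (rl al) n (R - X ^ m) hinj
      · refine lt_of_le_of_lt (natDegree_sub_le _ _) ?_
        rw [natDegree_X_pow]
        exact max_lt hR1 (by omega)
      · intro j r hr
        rw [map_sub, coeff_sub, hR2 j r hr, taylor_X_pow, coeff_X_add_C_pow]
        unfold mu rl
        ring
    have h1 : R = X ^ m := sub_eq_zero.1 h0
    rw [← hR3, h1, coeff_X_pow, if_neg (by omega)]
  · intro M hM hab
    have hmu : ∀ (j : Fin 3) (r : ℕ), |mu al m j r| ≤ (2 * M) ^ m := by
      intro j r
      unfold mu
      rw [abs_mul, abs_pow, mul_pow]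
      have h1 : |((m.choose r : ℕ) : ℝ)| ≤ 2 ^ m := by
        rw [abs_of_nonneg (Nat.cast_nonneg _)]
        exact_mod_cast Nat.choose_le_two_pow m r
      have h2 : |(al j : ℝ)| ^ (m - r) ≤ M ^ m :=
        le_trans (pow_le_pow_left₀ (abs_nonneg _) (hab j) _)
          (pow_le_pow_right₀ hM (Nat.sub_le _ _))
      exact mul_le_mul h1 h2 (by positivity) (by positivity)
    unfold val
    calc |∑ j : Fin 3, ∑ r ∈ Finset.range (n j), w j r * mu al m j r|
        ≤ ∑ j : Fin 3, ∑ r ∈ Finset.range (n j), |w j r| * (2 * M) ^ m := by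
          refine le_trans (Finset.abs_sum_le_sum_abs _ _) (Finset.sum_le_sum fun j _ => ?_)
          refine le_trans (Finset.abs_sum_le_sum_abs _ _) (Finset.sum_le_sum fun r _ => ?_)
          rw [abs_mul]
          exact mul_le_mul_of_nonneg_left (hmu j r) (abs_nonneg _)
      _ = (∑ j : Fin 3, ∑ r ∈ Finset.range (n j), |w j r|) * (2 * M) ^ m := by
          rw [Finset.sum_mul]
          refine Finset.sum_congr rfl fun j _ => ?_
          rw [Finset.sum_mul]
      _ ≤ 2 ^ (tot n - 1) * (2 * M) ^ m :=
          mul_le_mul_of_nonneg_right hw.abs_le (by positivity)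

end Pool.Agent.W789.KT.A05
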