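import Mathlib
import Pool.Agent.W789.KT.Defs

set_option autoImplicit false

/-! KT-A06: the binomial series (k+1/2) with Taylor shift. -/

namespace Pool.Agent.W789.KT.A06

open Pool.Agent.W789.KT

lemma bs_succ (k r : ℕ) : bs k (r + 1) = bs k r * (((k : ℝ) + 1 / 2 - (r : ℝ)) / ((r : ℝ) + 1)) := by
  unfold bs
  rw [Finset.prod_range_succ]

lemma choose_succ' (a : ℝ) (n : ℕ) :
    Ring.choose a (n + 1) = Ring.choose a n * ((a - n) / (n + 1)) := by
  have h1 := Ring.descPochhammer_eq_factorial_smul_choose a (n + 1)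
  have h0 := Ring.descPochhammer_eq_factorial_smul_choose a n
  rw [descPochhammer_succ_right, Polynomial.smeval_mul, h0] at h1
  simp only [Polynomial.smeval_sub, Polynomial.smeval_X, Polynomial.smeval_natCast, pow_one,
    pow_zero, nsmul_eq_mul, mul_one, Nat.factorial_succ, Nat.cast_mul, Nat.cast_add,
    Nat.cast_one] at h1
  have hf : (n.factorial : ℝ) ≠ 0 := by positivity
  have hn : ((n : ℝ) + 1) ≠ 0 := by positivity
  have h2 : (n.factorial : ℝ) * (Ring.choose a n * (a - n)) =
      (n.factorial : ℝ) * (((n : ℝ) + 1) * Ring.choose a (n + 1)) := by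
    linear_combination h1
  have h3 := mul_left_cancel₀ hf h2
  field_simp
  linear_combination -h3

lemma choose_eq (k i : ℕ) : Ring.choose ((k : ℝ) + 1 / 2) i = bs k i := by
  induction i with
  | zero => simp [bs]
  | succ i ih => rw [choose_succ', bs_succ, ih]

lemma hasSum_bin (k : ℕ) (u : ℝ) (hu : |u| < 1) :
    HasSum (fun i : ℕ => bs k i * u ^ i) ((1 + u) ^ ((k : ℝ) + 1 / 2)) := by
  have h := (Real.one_add_rpow_hasFPowerSeriesOnBall_zero (a := (k : ℝ) + 1 / 2)).hasSum
    (y := u) (by simpa [enorm_eq_nnnorm, ← NNReal.coe_lt_coe] using hu)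
  simp only [zero_add] at h
  refine h.congr_fun ?_
  intro n
  rw [binomialSeries_apply, choose_eq, List.ofFn_const, List.prod_replicate, smul_eq_mul]

lemma bs_mul_choose (k r : ℕ) (hr : r ≤ k) (i : ℕ) :
    bs k (r + i) * ((r + i).choose r : ℝ) = bs k r * bs (k - r) i := by
  induction i with
  | zero => simp [bs]
  | succ i ih =>
    have hc : ((r + (i + 1)).choose r : ℝ) * ((i : ℝ) + 1) =
        ((r + i).choose r : ℝ) * ((r : ℝ) + i + 1) := by
      have h := Nat.add_one_mul_choose_eq (r + i) i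
      have e1 : (r + i).choose i = (r + i).choose r := Nat.choose_symm_add.symm
      have e2 : (r + i).succ.choose i.succ = (r + (i + 1)).choose r := by
        have : (r + (i + 1)).choose r = (r + (i + 1)).choose (i + 1) := Nat.choose_symm_add
        rw [this]; rfl
      rw [e1, e2] at h
      have h' : (((r + i).succ * (r + i).choose r : ℕ) : ℝ) =
        (((r + (i + 1)).choose r * i.succ : ℕ) : ℝ) := by rw [h]
      push_cast at h'
      linear_combination -h'
    have e : r + (i + 1) = (r + i) + 1 := rfl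
    rw [bs_succ (k - r) i]
    have e3 : bs k (r + (i + 1)) = bs k (r + i) * (((k : ℝ) + 1 / 2 - ((r + i : ℕ) : ℝ)) / (((r + i : ℕ) : ℝ) + 1)) := by
      rw [e, bs_succ]
    rw [e3, Nat.cast_sub hr]
    have hi : ((i : ℝ) + 1) ≠ 0 := by positivity
    have hri : ((r : ℝ) + i + 1) ≠ 0 := by positivity
    push_cast
    have hc' : ((r + (i + 1)).choose r : ℝ) = ((r + i).choose r : ℝ) * ((r : ℝ) + i + 1) / ((i : ℝ) + 1) := by
      field_simp
      linear_combination hc
    rw [hc']
    have : bs k (r + i) * (((k : ℝ) + 1 / 2 - ((r : ℝ) + i)) / ((r : ℝ) + i + 1)) *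
        (((r + i).choose r : ℝ) * ((r : ℝ) + i + 1) / ((i : ℝ) + 1)) =
        (bs k (r + i) * ((r + i).choose r : ℝ)) * (((k : ℝ) + 1 / 2 - ((r : ℝ) + i)) / ((i : ℝ) + 1)) := by
      field_simp
    rw [this, ih]
    ring

theorem pf : BinStm := by
  intro k r N a hr hN ha h4
  have hu0 : 0 ≤ a / N := div_nonneg ha hN.le
  have hu : |a / N| < 1 := by
    rw [abs_of_nonneg hu0, div_lt_one hN]
    linarith
  have hpos : 0 < 1 + a / N := by linarith
  have h := (hasSum_bin (k - r) (a / N) hu).mul_left (bs k r * N ^ (k - r))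
  have hval : bs k r * N ^ (k - r) * (1 + a / N) ^ (((k - r : ℕ) : ℝ) + 1 / 2) =
      bs k r * (N + a) ^ (k - r) * Real.sqrt (1 + a / N) := by
    rw [Real.rpow_add hpos, Real.rpow_natCast, ← Real.sqrt_eq_rpow]
    have : (N + a) ^ (k - r) = N ^ (k - r) * (1 + a / N) ^ (k - r) := by
      rw [← mul_pow]
      congr 1
      field_simp
    rw [this]
    ring
  rw [hval] at h
  have hinj : Function.Injective (fun i : ℕ => r + i) := fun x y hxy => by simpa using hxy
  rw [← hinj.hasSum_iff]
  · refine h.congr_fun ?_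
    intro i
    simp only [Function.comp]
    have hb := bs_mul_choose k r hr i
    have hN' : N ≠ 0 := hN.ne'
    have e1 : N ^ k / N ^ (r + i) * a ^ (r + i - r) = N ^ (k - r) * (a / N) ^ i := by
      rw [Nat.add_sub_cancel_left, div_pow, pow_add]
      have : N ^ k = N ^ (k - r) * N ^ r := by rw [← pow_add, Nat.sub_add_cancel hr]
      rw [this]
      field_simp
    calc bs k (r + i) * (N ^ k / N ^ (r + i)) * (((r + i).choose r : ℝ) * a ^ (r + i - r))
        = (bs k (r + i) * ((r + i).choose r : ℝ)) * (N ^ k / N ^ (r + i) * a ^ (r + i - r)) := by ring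
      _ = bs k r * N ^ (k - r) * (bs (k - r) i * (a / N) ^ i) := by rw [hb, e1]; ring
  · intro m hm
    have hlt : m < r := by
      by_contra hcon
      push Not at hcon
      exact hm ⟨m - r, by simp; omega⟩
    simp [Nat.choose_eq_zero_of_lt hlt]

end Pool.Agent.W789.KT.A06
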