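import Mathlib
import Pool.Agent.W789.KT.Defs

/-!
# Project KT: bound of the binomial coefficients
-/

set_option autoImplicit false

namespace Pool.Agent.W789.KT.A07

open Pool.Agent.W789.KT

lemma bs_succ (k r : ℕ) :
    bs k (r + 1) = bs k r * (((k : ℝ) + 1 / 2 - (r : ℝ)) / ((r : ℝ) + 1)) := by
  unfold bs
  rw [Finset.prod_range_succ]

/-- the first coefficients -/
lemma bs_small (k : ℕ) : ∀ r : ℕ, r ≤ k + 1 → |bs k r| ≤ (((k + 1).choose r : ℕ) : ℝ) := by
  intro r
  induction r with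
  | zero =>
    intro _
    simp [bs]
  | succ r ih =>
    intro hr
    have hr' : r ≤ k := by omega
    have hrR : (r : ℝ) ≤ (k : ℝ) := by exact_mod_cast hr'
    have h1 := ih (by omega)
    have hr0 : (0 : ℝ) < (r : ℝ) + 1 := by positivity
    rw [bs_succ, abs_mul, abs_of_pos (div_pos (by linarith) hr0 :
      (0 : ℝ) < ((k : ℝ) + 1 / 2 - (r : ℝ)) / ((r : ℝ) + 1))]
    have hch : ((k + 1).choose (r + 1) : ℝ) * ((r : ℝ) + 1) =
        ((k + 1).choose r : ℝ) * ((k : ℝ) + 1 - (r : ℝ)) := by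
      have h := Nat.choose_succ_right_eq (k + 1) r
      have h' : (((k + 1).choose (r + 1) * (r + 1) : ℕ) : ℝ) =
          (((k + 1).choose r * (k + 1 - r) : ℕ) : ℝ) := by rw [h]
      rw [Nat.cast_mul, Nat.cast_mul, Nat.cast_sub (by omega : r ≤ k + 1)] at h'
      push_cast at h'
      exact h'
    rw [← mul_div_assoc, div_le_iff₀ hr0, hch]
    have hc0 : (0 : ℝ) ≤ ((k + 1).choose r : ℝ) := Nat.cast_nonneg _
    exact mul_le_mul h1 (by linarith) (by linarith) hc0

/-- the later coefficients -/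
lemma bs_large (k : ℕ) : ∀ t : ℕ, |bs k (k + 1 + t)| ≤ |bs k (k + 1)| := by
  intro t
  induction t with
  | zero => exact le_rfl
  | succ t ih =>
    rw [show k + 1 + (t + 1) = (k + 1 + t) + 1 by ring, bs_succ, abs_mul]
    refine le_trans ?_ ih
    refine mul_le_of_le_one_right (abs_nonneg _) ?_
    rw [abs_div, abs_of_pos (by positivity : (0 : ℝ) < ((k + 1 + t : ℕ) : ℝ) + 1),
      div_le_one (by positivity)]
    rw [abs_le]
    push_cast
    have hk : (0 : ℝ) ≤ (k : ℝ) := Nat.cast_nonneg _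
    have ht : (0 : ℝ) ≤ (t : ℝ) := Nat.cast_nonneg _
    constructor <;> linarith

theorem pf : BsAbsStm := by
  intro k r
  have hch : ∀ s : ℕ, (((k + 1).choose s : ℕ) : ℝ) ≤ 2 ^ (k + 1) := by
    intro s
    exact_mod_cast Nat.choose_le_two_pow (k + 1) s
  by_cases hr : r ≤ k + 1
  · exact le_trans (bs_small k r hr) (hch r)
  · obtain ⟨t, rfl⟩ := Nat.exists_eq_add_of_le (le_of_not_ge hr)
    exact le_trans (bs_large k t) (le_trans (bs_small k (k + 1) le_rfl) (hch _))

end Pool.Agent.W789.KT.A07
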