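import Mathlib
import Pool.Agent.W789.KT.Defs

set_option autoImplicit false

namespace Pool.Agent.W789.KT.A08

open Pool.Agent.W789.KT

theorem bs_zero (k : ℕ) : bs k 0 = 1 := by
  unfold bs; simp

theorem bs_succ (k r : ℕ) : bs k (r + 1) * ((r : ℝ) + 1) = bs k r * ((k : ℝ) + 1 / 2 - r) := by
  unfold bs
  rw [Finset.prod_range_succ]
  have h : ((r : ℝ) + 1) ≠ 0 := by positivity
  field_simp

theorem bs_diag (k r : ℕ) : bs (k + 1) (r + 1) * ((r : ℝ) + 1) = bs k r * ((k : ℝ) + 3 / 2) := by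
  induction r with
  | zero =>
    have h := bs_succ (k + 1) 0
    rw [bs_zero] at h
    rw [bs_zero]
    push_cast at h ⊢
    linarith
  | succ r ih =>
    have h1 := bs_succ (k + 1) (r + 1)
    have h2 := bs_succ k r
    push_cast at h1 ⊢
    have h : ((r : ℝ) + 1) ≠ 0 := by positivity
    have h3 : bs (k + 1) (r + 1) = bs k r * ((k : ℝ) + 3 / 2) / ((r : ℝ) + 1) := by
      rw [eq_div_iff h]; exact ih
    have h4 : bs k (r + 1) = bs k r * ((k : ℝ) + 1 / 2 - r) / ((r : ℝ) + 1) := by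
      rw [eq_div_iff h]; exact h2
    rw [h3] at h1
    rw [h1, h4]
    ring

theorem pascal (k r : ℕ) : bs (k + 1) (r + 1) = bs k (r + 1) + bs k r := by
  have h : ((r : ℝ) + 1) ≠ 0 := by positivity
  have h1 := bs_diag k r
  have h2 := bs_succ k r
  apply mul_right_cancel₀ h
  rw [h1, add_mul, h2]
  ring

theorem cat_rec (r : ℕ) : ((r : ℝ) + 2) * (catalan (r + 1) : ℝ) = 2 * (2 * (r : ℝ) + 1) * (catalan r : ℝ) := by
  have h1 := succ_mul_catalan_eq_centralBinom (r + 1)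
  have h2 := Nat.succ_mul_centralBinom_succ r
  have h3 := succ_mul_catalan_eq_centralBinom r
  have h1' : (((r : ℝ) + 1) + 1) * (catalan (r + 1) : ℝ) = ((r + 1).centralBinom : ℝ) := by exact_mod_cast h1
  have h2' : ((r : ℝ) + 1) * ((r + 1).centralBinom : ℝ) = 2 * (2 * (r : ℝ) + 1) * (r.centralBinom : ℝ) := by
    exact_mod_cast h2
  have h3' : ((r : ℝ) + 1) * (catalan r : ℝ) = (r.centralBinom : ℝ) := by exact_mod_cast h3
  have h : ((r : ℝ) + 1) ≠ 0 := by positivity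
  apply mul_left_cancel₀ h
  calc ((r : ℝ) + 1) * (((r : ℝ) + 2) * (catalan (r + 1) : ℝ))
      = ((r : ℝ) + 1) * ((((r : ℝ) + 1) + 1) * (catalan (r + 1) : ℝ)) := by ring
    _ = 2 * (2 * (r : ℝ) + 1) * (r.centralBinom : ℝ) := by rw [h1', h2']
    _ = ((r : ℝ) + 1) * (2 * (2 * (r : ℝ) + 1) * (catalan r : ℝ)) := by rw [← h3']; ring

theorem base (r : ℕ) : (4 : ℝ) ^ (r + 1) * bs 0 (r + 1) = 2 * (-1) ^ r * (catalan r : ℝ) := by
  induction r with
  | zero =>
    have h := bs_succ 0 0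
    rw [bs_zero] at h
    push_cast at h
    rw [catalan_zero]
    push_cast
    linarith
  | succ r ih =>
    have h1 := bs_succ 0 (r + 1)
    have h2 := cat_rec r
    push_cast at h1
    have h : ((r : ℝ) + 2) ≠ 0 := by positivity
    apply mul_right_cancel₀ h
    calc (4 : ℝ) ^ (r + 1 + 1) * bs 0 (r + 1 + 1) * ((r : ℝ) + 2)
        = 4 * 4 ^ (r + 1) * (bs 0 (r + 1 + 1) * ((r : ℝ) + 1 + 1)) := by ring
      _ = (4 ^ (r + 1) * bs 0 (r + 1)) * (4 * (0 + 1 / 2 - ((r : ℝ) + 1))) := by rw [h1]; ring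
      _ = 2 * (-1) ^ (r + 1) * (2 * (2 * (r : ℝ) + 1) * (catalan r : ℝ)) := by rw [ih]; ring
      _ = 2 * (-1) ^ (r + 1) * (catalan (r + 1) : ℝ) * ((r : ℝ) + 2) := by rw [← h2]; ring

theorem pf : BsIntStm := by
  intro k
  induction k with
  | zero =>
    intro r
    cases r with
    | zero => exact ⟨1, by rw [bs_zero]; norm_num⟩
    | succ r => exact ⟨2 * (-1) ^ r * (catalan r : ℤ), by rw [base]; push_cast; ring⟩
  | succ k ih =>
    intro r
    cases r with
    | zero => exact ⟨1, by rw [bs_zero]; norm_num⟩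
    | succ r =>
      obtain ⟨z1, h1⟩ := ih (r + 1)
      obtain ⟨z2, h2⟩ := ih r
      refine ⟨z1 + 4 * z2, ?_⟩
      rw [pascal]
      push_cast
      rw [← h1, ← h2]
      ring

end Pool.Agent.W789.KT.A08
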