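import Mathlib
import Pool.Agent.W789.KT.Defs

set_option autoImplicit false

open Polynomial

/-! Project KT, part A09: smallness of the divided difference. -/

namespace Pool.Agent.W789.KT.A09

open Pool.Agent.W789.KT

lemma hasSum_val (hB : BinStm) (al : Fin 3 → ℤ) (n : Fin 3 → ℕ) (w : Fin 3 → ℕ → ℝ)
    (M N : ℝ) (k : ℕ) (hn : ∀ j, n j ≤ k + 1) (h1 : ∀ j, 1 ≤ al j)
    (hM : ∀ j, (al j : ℝ) ≤ M) (hN : 4 * M ≤ N) (hN0 : 0 < N) :
    HasSum (fun m : ℕ => bs k m * (N ^ k / N ^ m) * val w n (mu al m))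
      (val w n (tg k N al)) := by
  have key : HasSum (fun m : ℕ => ∑ j : Fin 3, ∑ r ∈ Finset.range (n j),
      w j r * (bs k m * (N ^ k / N ^ m) * mu al m j r)) (val w n (tg k N al)) := by
    unfold val
    apply hasSum_sum
    intro j _
    apply hasSum_sum
    intro r hr
    apply HasSum.mul_left
    have hr' : r ≤ k := by
      have := Finset.mem_range.mp hr
      have := hn j
      omega
    have h0 : (0 : ℝ) ≤ (al j : ℝ) := by
      have : (1 : ℝ) ≤ (al j : ℝ) := by exact_mod_cast h1 j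
      linarith
    have h4 : 4 * (al j : ℝ) ≤ N := by
      have := hM j
      linarith
    exact hB k r N (al j : ℝ) hr' hN0 h0 h4
  have hfun : (fun m : ℕ => bs k m * (N ^ k / N ^ m) * val w n (mu al m))
      = (fun m : ℕ => ∑ j : Fin 3, ∑ r ∈ Finset.range (n j),
      w j r * (bs k m * (N ^ k / N ^ m) * mu al m j r)) := by
    funext m
    unfold val
    rw [Finset.mul_sum]
    refine Finset.sum_congr rfl ?_
    intro j _
    rw [Finset.mul_sum]
    refine Finset.sum_congr rfl ?_
    intro r _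
    ring
  rw [hfun]
  exact key

lemma hasSum_geo (C x : ℝ) (K : ℕ) (hx0 : 0 ≤ x) (hx1 : x < 1) :
    HasSum (fun m : ℕ => if m < K then (0 : ℝ) else C * x ^ m) (C * x ^ K * (1 - x)⁻¹) := by
  have h := (hasSum_geometric_of_lt_one hx0 hx1).mul_left (C * x ^ K)
  have h2 : HasSum (fun m : ℕ => (fun m : ℕ => if m < K then (0 : ℝ) else C * x ^ m) (m + K))
      (C * x ^ K * (1 - x)⁻¹) := by
    refine h.congr_fun ?_
    intro m
    have : ¬ (m + K < K) := by omega
    simp only [this, if_false]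
    rw [pow_add]
    ring
  have h3 := (hasSum_nat_add_iff (f := fun m : ℕ => if m < K then (0 : ℝ) else C * x ^ m) K).mp h2
  have h4 : ∑ i ∈ Finset.range K, (if i < K then (0 : ℝ) else C * x ^ i) = 0 := by
    apply Finset.sum_eq_zero
    intro i hi
    simp [Finset.mem_range.mp hi]
  rw [h4, add_zero] at h3
  exact h3

theorem pf (hM : MonoStm) (hB : BinStm) (hA : BsAbsStm) : ErrStm := by
  intro al Dl n w M N k hinj hW htot hn h1 hMa hN
  have hM1 : 1 ≤ M := by
    have h : (1 : ℝ) ≤ (al 0 : ℝ) := by exact_mod_cast h1 0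
    exact h.trans (hMa 0)
  have hN0 : 0 < N := by linarith
  have hs := hasSum_val hB al n w M N k hn h1 hMa hN hN0
  have hx0 : 0 ≤ 2 * M / N := by positivity
  have hx2 : 2 * M / N ≤ 1 / 2 := by
    rw [div_le_div_iff₀ hN0 (by norm_num)]
    linarith
  have hg := hasSum_geo (2 * 16 ^ k * N ^ k) (2 * M / N) (3 * k) hx0 (by linarith)
  have hb : ∀ m : ℕ, ‖bs k m * (N ^ k / N ^ m) * val w n (mu al m)‖ ≤
      (if m < 3 * k then (0 : ℝ) else (2 * 16 ^ k * N ^ k) * (2 * M / N) ^ m) := by
    intro m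
    obtain ⟨hz, hbd⟩ := hM al Dl n w m hinj hW
    split_ifs with hm
    · rw [hz (by omega)]
      simp
    · have hb1 := hbd M hM1 (by
        intro j
        have h : (1 : ℝ) ≤ (al j : ℝ) := by exact_mod_cast h1 j
        rw [abs_of_nonneg (by linarith)]
        exact hMa j)
      rw [htot] at hb1
      have hb2 := hA k m
      have hp : 0 ≤ N ^ k / N ^ m := by positivity
      rw [Real.norm_eq_abs, abs_mul, abs_mul, abs_of_nonneg hp]
      calc |bs k m| * (N ^ k / N ^ m) * |val w n (mu al m)|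
          ≤ 2 ^ (k + 1) * (N ^ k / N ^ m) * (2 ^ (3 * k + 1 - 1) * (2 * M) ^ m) := by
            apply mul_le_mul
            · exact mul_le_mul_of_nonneg_right hb2 hp
            · exact hb1
            · exact abs_nonneg _
            · positivity
        _ = (2 * 16 ^ k * N ^ k) * (2 * M / N) ^ m := by
            have e1 : (3 * k + 1 - 1 : ℕ) = 3 * k := by omega
            have e2 : (16 : ℝ) ^ k = 2 ^ k * 2 ^ (3 * k) := by
              rw [pow_mul, ← mul_pow]
              norm_num
            rw [e1, e2, div_pow, pow_succ]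
            ring
  have hle := hs.norm_le_of_bounded hg hb
  rw [Real.norm_eq_abs] at hle
  refine hle.trans ?_
  have hinv : (1 - 2 * M / N)⁻¹ ≤ 2 := by
    rw [inv_le_comm₀ (by linarith) (by norm_num)]
    linarith
  calc (2 * 16 ^ k * N ^ k) * (2 * M / N) ^ (3 * k) * (1 - 2 * M / N)⁻¹
      ≤ (2 * 16 ^ k * N ^ k) * (2 * M / N) ^ (3 * k) * 2 :=
        mul_le_mul_of_nonneg_left hinv (by positivity)
    _ = 4 * (128 * M ^ 3 / N ^ 2) ^ k := by
        have e : (128 * M ^ 3 / N ^ 2) = 16 * N * (2 * M / N) ^ 3 := by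
          field_simp
          ring
        rw [e, mul_pow, mul_pow, ← pow_mul]
        ring

end Pool.Agent.W789.KT.A09
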