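import Mathlib
import Pool.Agent.W789.KT.Defs

set_option autoImplicit false

open Polynomial

/-! KT-A10: the nonvanishing argument. -/

namespace Pool.Agent.W789.KT.A10

open Pool.Agent.W789.KT

theorem coeff_op (T : ℝ[X]) (c s : ℝ) (r : ℕ) :
    ((X + C c) * derivative T - C s * T).coeff r =
      c * ((r : ℝ) + 1) * T.coeff (r + 1) + ((r : ℝ) - s) * T.coeff r := by
  rw [coeff_sub, add_mul, coeff_add, coeff_C_mul, coeff_C_mul, coeff_derivative]
  rcases r with _ | r
  · rw [coeff_X_mul_zero]
    push_cast
    ring
  · rw [coeff_X_mul, coeff_derivative]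
    push_cast
    ring

theorem taylor_op (R : ℝ[X]) (a N s : ℝ) :
    taylor a ((X + C N) * derivative R - C s * R) =
      (X + C (N + a)) * derivative (taylor a R) - C s * taylor a R := by
  rw [map_sub, taylor_mul, taylor_mul, taylor_C]
  congr 1
  rw [map_add, taylor_X, taylor_C]
  have h1 : taylor a (derivative R) = derivative (taylor a R) := by
    rw [taylor_apply, taylor_apply, derivative_comp]
    simp
  rw [h1, C_add]
  ring

theorem bs_succ (k r : ℕ) : bs k (r + 1) * ((r : ℝ) + 1) = bs k r * ((k : ℝ) + 1 / 2 - r) := by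
  unfold bs
  rw [Finset.prod_range_succ]
  have h : ((r : ℝ) + 1) ≠ 0 := by positivity
  field_simp

theorem pf (hU : UniqStm) : NSStm := by
  intro k al N q R hk hal hN hR hT
  set S : ℝ[X] := (X + C N) * derivative R - C ((k : ℝ) + 1 / 2) * R with hS
  have hSdeg : S.natDegree ≤ R.natDegree := by
    rw [hS, natDegree_le_iff_coeff_eq_zero]
    intro m hm
    rw [coeff_op, coeff_eq_zero_of_natDegree_lt hm,
      coeff_eq_zero_of_natDegree_lt (by omega : R.natDegree < m + 1)]
    ring
  have hS0 : S = 0 := by
    refine hU al (fun _ => k) S hal ?_ ?_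
    · show S.natDegree < k + k + k
      omega
    · intro j r hr
      have hr' : r < k := hr
      rw [hS, taylor_op, coeff_op, hT j r hr'.le, hT j (r + 1) hr']
      have e : k - r = (k - (r + 1)) + 1 := by omega
      rw [e, pow_succ]
      have hb := bs_succ k r
      linear_combination (q j * (N + al j) ^ (k - (r + 1)) * (N + al j)) * hb
  have hR0 : R = 0 := by
    by_contra hne
    have h1 : S.coeff R.natDegree = 0 := by rw [hS0, coeff_zero]
    rw [hS, coeff_op, coeff_eq_zero_of_natDegree_lt (by omega : R.natDegree < R.natDegree + 1),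
      mul_zero, zero_add, mul_eq_zero] at h1
    rcases h1 with h1 | h1
    · have h2 : (2 * R.natDegree : ℝ) = 2 * k + 1 := by linarith
      have h3 : 2 * R.natDegree = 2 * k + 1 := by exact_mod_cast h2
      omega
    · exact hne (leadingCoeff_eq_zero.1 h1)
  funext j
  have h4 := hT j 0 (Nat.zero_le _)
  rw [hR0, map_zero, coeff_zero] at h4
  have h5 : bs k 0 = 1 := by
    unfold bs
    simp
  rw [h5, one_mul, zero_eq_mul] at h4
  rcases h4 with h4 | h4
  · exact h4
  · exact absurd h4 (pow_ne_zero _ (hN j).ne')

end Pool.Agent.W789.KT.A10
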