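import Mathlib
import Pool.Agent.W789.KT.Defs

set_option autoImplicit false

open Polynomial

namespace Pool.Agent.W789.KT.A11

open Pool.Agent.W789.KT

theorem tot_nn (k : ℕ) (i : Fin 3) : tot (nn k i) = 3 * k + 1 := by
  unfold tot nn
  fin_cases i <;> simp <;> ring

theorem le_nn (k : ℕ) (i j : Fin 3) : k ≤ nn k i j := by
  unfold nn
  split_ifs <;> omega

theorem nn_self (k : ℕ) (i : Fin 3) : nn k i i = k + 1 := by
  unfold nn
  rw [if_pos rfl]

theorem deg_lt (k : ℕ) (hk : 1 ≤ k) (R : ℝ[X]) (h1 : R.natDegree < 3 * k + 1) (h2 : R.coeff (3 * k) = 0) :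
    R.natDegree < 3 * k := by
  by_contra h
  have h3 : R.natDegree = 3 * k := by omega
  have h4 : R.leadingCoeff = 0 := by
    rw [leadingCoeff, h3]
    exact h2
  rw [leadingCoeff_eq_zero] at h4
  rw [h4, natDegree_zero] at h3
  omega

theorem pf (hU : UniqStm) (hN : NSStm) : IndepStm := by
  intro k al Dl N q w hk hinj hpos hw hval
  choose R hdeg hmat hcoef using fun i => (hw i).interp (tq k N al q)
  have hrl : Function.Injective (rl al) := fun a b hab => hinj (by
    unfold rl at hab
    exact_mod_cast hab)
  have hd : ∀ i, (R i).natDegree < 3 * k := by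
    intro i
    apply deg_lt k hk
    · have := hdeg i
      rwa [tot_nn] at this
    · have := hcoef i
      rw [tot_nn, hval i] at this
      simpa using this
  have hEq : ∀ i, R i = R 0 := by
    intro i
    have h0 : R i - R 0 = 0 := by
      apply hU (rl al) (fun _ => k) (R i - R 0) hrl
      · have h1 : tot (fun _ => k) = 3 * k := by
          unfold tot
          ring
        rw [h1]
        refine lt_of_le_of_lt (natDegree_sub_le _ _) ?_
        exact max_lt (hd i) (hd 0)
      · intro j r hr
        have e1 := hmat i j r (lt_of_lt_of_le hr (le_nn k i j))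
        have e2 := hmat 0 j r (lt_of_lt_of_le hr (le_nn k 0 j))
        rw [map_sub, coeff_sub, e1, e2, sub_self]
    exact sub_eq_zero.1 h0
  apply hN k (rl al) N q (R 0) hk hrl
  · intro j
    exact hpos j
  · exact hd 0
  · intro j r hr
    have e := hmat j j r (by rw [nn_self]; omega)
    rw [hEq j] at e
    rw [e]
    rfl

end Pool.Agent.W789.KT.A11

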