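import Mathlib
import Pool.Agent.W789.KT.Defs

set_option autoImplicit false

/-! Simultaneous Pade approximation (part A12 of project KT). -/

namespace Pool.Agent.W789.KT.A12

open Pool.Agent.W789.KT

theorem tot_nn (k : ℕ) (i : Fin 3) : tot (nn k i) = 3 * k + 1 := by
  unfold tot nn
  fin_cases i <;> simp <;> omega

theorem nn_le (k : ℕ) (i j : Fin 3) : nn k i j ≤ k + 1 := by
  unfold nn
  split <;> omega

theorem sum_int {s : Finset ℕ} {f : ℕ → ℝ} (h : ∀ r ∈ s, ∃ z : ℤ, f r = z) :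
    ∃ z : ℤ, ∑ r ∈ s, f r = z := by
  refine Finset.sum_induction f (fun x => ∃ z : ℤ, x = z) ?_ ⟨0, by simp⟩ h
  rintro a b ⟨z, rfl⟩ ⟨z', rfl⟩
  exact ⟨z + z', by push_cast; ring⟩

/-- the coefficient of the node `j` -/
noncomputable def AA (k : ℕ) (N : ℝ) (al : Fin 3 → ℤ) (n : Fin 3 → ℕ) (w : Fin 3 → ℕ → ℝ)
    (j : Fin 3) : ℝ :=
  ∑ r ∈ Finset.range (n j), w j r * (bs k r * (N + al j) ^ (k - r))

theorem val_tg (k : ℕ) (N : ℝ) (al : Fin 3 → ℤ) (n : Fin 3 → ℕ) (w : Fin 3 → ℕ → ℝ) :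
    val w n (tg k N al) = ∑ j, AA k N al n w j * Real.sqrt (1 + (al j : ℝ) / N) := by
  unfold val tg AA
  apply Finset.sum_congr rfl
  intro j _
  rw [Finset.sum_mul]
  apply Finset.sum_congr rfl
  intro r _
  ring

theorem val_tq (k : ℕ) (N : ℝ) (al : Fin 3 → ℤ) (q : Fin 3 → ℝ) (n : Fin 3 → ℕ)
    (w : Fin 3 → ℕ → ℝ) :
    val w n (tq k N al q) = ∑ j, AA k N al n w j * q j := by
  unfold val tq AA
  apply Finset.sum_congr rfl
  intro j _
  rw [Finset.sum_mul]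
  apply Finset.sum_congr rfl
  intro r _
  ring

theorem AA_int (hZ : BsIntStm) (k : ℕ) (N : ℤ) (al : Fin 3 → ℤ) (Dl : ℤ) (n : Fin 3 → ℕ)
    (w : Fin 3 → ℕ → ℝ) (hw : IsW al Dl n w) (ht : tot n = 3 * k + 1) (hn : ∀ j, n j ≤ k + 1)
    (j : Fin 3) : ∃ z : ℤ, (4 : ℝ) ^ k * (Dl : ℝ) ^ (3 * k) * AA k N al n w j = z := by
  unfold AA
  rw [Finset.mul_sum]
  apply sum_int
  intro r hr
  have hr' : r < n j := Finset.mem_range.mp hr
  have hrk : r ≤ k := by
    have := hn j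
    omega
  obtain ⟨z1, h1⟩ := hw.int j r hr'
  obtain ⟨z2, h2⟩ := hZ k r
  rw [ht, Nat.add_sub_cancel] at h1
  refine ⟨z1 * (4 ^ (k - r) * z2) * (N + al j) ^ (k - r), ?_⟩
  push_cast
  rw [← h1, ← h2]
  have h4 : (4 : ℝ) ^ k = 4 ^ (k - r) * 4 ^ r := by
    rw [← pow_add]
    congr 1
    omega
  rw [h4]
  ring

theorem AA_abs (hA : BsAbsStm) (k : ℕ) (M N : ℝ) (al : Fin 3 → ℤ) (Dl : ℤ) (n : Fin 3 → ℕ)
    (w : Fin 3 → ℕ → ℝ) (hw : IsW al Dl n w) (ht : tot n = 3 * k + 1)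
    (h1 : ∀ j, 1 ≤ (al j : ℝ) ∧ (al j : ℝ) ≤ M) (hMN : 4 * M ≤ N) (j : Fin 3) :
    |AA k N al n w j| ≤ 2 ^ (3 * k) * (2 ^ (k + 1) * (2 * N) ^ k) := by
  have hM : 1 ≤ M := (h1 j).1.trans (h1 j).2
  have hN : 4 ≤ N := by linarith
  have hC : 0 ≤ (2 : ℝ) ^ (k + 1) * (2 * N) ^ k := by positivity
  have hS : ∑ r ∈ Finset.range (n j), |w j r| ≤ 2 ^ (3 * k) := by
    have h2 := hw.abs_le
    rw [ht, Nat.add_sub_cancel] at h2
    refine le_trans ?_ h2
    exact Finset.single_le_sum (f := fun j => ∑ r ∈ Finset.range (n j), |w j r|)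
      (fun j _ => Finset.sum_nonneg (fun r _ => abs_nonneg _)) (Finset.mem_univ j)
  calc |AA k N al n w j|
      ≤ ∑ r ∈ Finset.range (n j), |w j r * (bs k r * (N + al j) ^ (k - r))| :=
        Finset.abs_sum_le_sum_abs _ _
    _ ≤ ∑ r ∈ Finset.range (n j), |w j r| * (2 ^ (k + 1) * (2 * N) ^ k) := by
        apply Finset.sum_le_sum
        intro r _
        rw [abs_mul]
        apply mul_le_mul_of_nonneg_left _ (abs_nonneg _)
        rw [abs_mul]
        apply mul_le_mul (hA k r) _ (abs_nonneg _) (by positivity)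
        have h3 : 0 ≤ N + (al j : ℝ) := by linarith [(h1 j).1]
        have h4 : N + (al j : ℝ) ≤ 2 * N := by linarith [(h1 j).2]
        rw [abs_of_nonneg (pow_nonneg h3 _)]
        calc (N + (al j : ℝ)) ^ (k - r) ≤ (2 * N) ^ (k - r) := pow_le_pow_left₀ h3 h4 _
          _ ≤ (2 * N) ^ k := pow_le_pow_right₀ (by linarith) (Nat.sub_le _ _)
    _ = (∑ r ∈ Finset.range (n j), |w j r|) * (2 ^ (k + 1) * (2 * N) ^ k) := by
        rw [Finset.sum_mul]
    _ ≤ 2 ^ (3 * k) * (2 ^ (k + 1) * (2 * N) ^ k) := mul_le_mul_of_nonneg_right hS hC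

theorem dl_dvd (al : Fin 3 → ℤ) (i i' : Fin 3) (h : i ≠ i') :
    (al i - al i') ∣ (al 0 - al 1) * (al 0 - al 2) * (al 1 - al 2) := by
  fin_cases i <;> fin_cases i'
  · exact absurd rfl h
  · exact ⟨(al 0 - al 2) * (al 1 - al 2), by
      show _ = (al 0 - al 1) * _
      ring⟩
  · exact ⟨(al 0 - al 1) * (al 1 - al 2), by
      show _ = (al 0 - al 2) * _
      ring⟩
  · exact ⟨-((al 0 - al 2) * (al 1 - al 2)), by
      show _ = (al 1 - al 0) * _
      ring⟩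
  · exact absurd rfl h
  · exact ⟨(al 0 - al 1) * (al 0 - al 2), by
      show _ = (al 1 - al 2) * _
      ring⟩
  · exact ⟨-((al 0 - al 1) * (al 1 - al 2)), by
      show _ = (al 2 - al 0) * _
      ring⟩
  · exact ⟨-((al 0 - al 1) * (al 0 - al 2)), by
      show _ = (al 2 - al 1) * _
      ring⟩
  · exact absurd rfl h

theorem pf (hW : WStm) (hE : ErrStm) (hI : IndepStm) (hA : BsAbsStm) (hZ : BsIntStm) :
    PadeStm := by
  intro al M N hinj hal hMN k hk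
  set Dl : ℤ := (al 0 - al 1) * (al 0 - al 2) * (al 1 - al 2) with hDl
  have hM1 : 1 ≤ M := (hal 0).1.trans (hal 0).2
  have hN1 : 4 ≤ N := by linarith
  have hMr : (1 : ℝ) ≤ (M : ℝ) := by exact_mod_cast hM1
  have hNr : (4 : ℝ) ≤ (N : ℝ) := by exact_mod_cast hN1
  have hMNr : 4 * (M : ℝ) ≤ (N : ℝ) := by exact_mod_cast hMN
  have halr : ∀ j, 1 ≤ (al j : ℝ) ∧ (al j : ℝ) ≤ (M : ℝ) := by
    intro j
    exact ⟨by exact_mod_cast (hal j).1, by exact_mod_cast (hal j).2⟩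
  have hdiff : ∀ i i', |((al i : ℝ) - (al i' : ℝ))| ≤ (M : ℝ) := by
    intro i i'
    rw [abs_le]
    constructor
    · linarith [(halr i).1, (halr i').2]
    · linarith [(halr i).2, (halr i').1]
  have hDabs : |(Dl : ℝ)| ≤ (M : ℝ) ^ 3 := by
    rw [hDl]
    push_cast
    rw [abs_mul, abs_mul]
    calc |((al 0 : ℝ) - (al 1 : ℝ))| * |((al 0 : ℝ) - (al 2 : ℝ))| * |((al 1 : ℝ) - (al 2 : ℝ))|
        ≤ (M : ℝ) * (M : ℝ) * (M : ℝ) := by
          apply mul_le_mul _ (hdiff 1 2) (abs_nonneg _) (by positivity)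
          exact mul_le_mul (hdiff 0 1) (hdiff 0 2) (abs_nonneg _) (by positivity)
      _ = (M : ℝ) ^ 3 := by ring
  have hD0 : Dl ≠ 0 := by
    rw [hDl]
    have h01 : al 0 - al 1 ≠ 0 := by
      intro h
      have := hinj (sub_eq_zero.mp h)
      exact absurd this (by decide)
    have h02 : al 0 - al 2 ≠ 0 := by
      intro h
      have := hinj (sub_eq_zero.mp h)
      exact absurd this (by decide)
    have h12 : al 1 - al 2 ≠ 0 := by
      intro h
      have := hinj (sub_eq_zero.mp h)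
      exact absurd this (by decide)
    exact mul_ne_zero (mul_ne_zero h01 h02) h12
  have hDr : (Dl : ℝ) ≠ 0 := by exact_mod_cast hD0
  have hc0 : (4 : ℝ) ^ k * (Dl : ℝ) ^ (3 * k) ≠ 0 :=
    mul_ne_zero (by positivity) (pow_ne_zero _ hDr)
  have hcabs : |(4 : ℝ) ^ k * (Dl : ℝ) ^ (3 * k)| ≤ (4 * (M : ℝ) ^ 9) ^ k := by
    rw [abs_mul, abs_pow, abs_pow, abs_of_pos (by norm_num : (0 : ℝ) < 4), mul_pow]
    apply mul_le_mul_of_nonneg_left _ (by positivity)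
    calc |(Dl : ℝ)| ^ (3 * k) ≤ ((M : ℝ) ^ 3) ^ (3 * k) := pow_le_pow_left₀ (abs_nonneg _) hDabs _
      _ = ((M : ℝ) ^ 9) ^ k := by
          rw [← pow_mul, ← pow_mul]
          congr 1
          ring
  have hw : ∀ i : Fin 3, ∃ w, IsW al Dl (nn k i) w := by
    intro i
    apply hW al Dl (nn k i) hinj (dl_dvd al)
    rw [tot_nn]
    omega
  choose w hw using hw
  have hint : ∀ i j : Fin 3, ∃ z : ℤ,
      (4 : ℝ) ^ k * (Dl : ℝ) ^ (3 * k) * AA k N al (nn k i) (w i) j = z := by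
    intro i j
    exact AA_int hZ k N al Dl (nn k i) (w i) (hw i) (tot_nn k i) (nn_le k i) j
  choose P hP using hint
  refine ⟨P, ?_, ?_, ?_⟩
  · intro q hq
    by_contra hcon
    push Not at hcon
    apply hq
    have h0 : (fun j => (q j : ℝ)) = 0 := by
      apply hI k al Dl (N : ℝ) (fun j => (q j : ℝ)) w hk hinj
        (fun j => by linarith [(halr j).1]) hw
      intro i
      rw [val_tq]
      have h1 : (4 : ℝ) ^ k * (Dl : ℝ) ^ (3 * k) *
          ∑ j, AA k N al (nn k i) (w i) j * (q j : ℝ) = 0 := by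
        rw [Finset.mul_sum]
        have h2 : ∀ j, (4 : ℝ) ^ k * (Dl : ℝ) ^ (3 * k) *
            (AA k N al (nn k i) (w i) j * (q j : ℝ)) = ((P i j * q j : ℤ) : ℝ) := by
          intro j
          push_cast
          rw [← hP i j]
          ring
        rw [Finset.sum_congr rfl (fun j _ => h2 j)]
        exact_mod_cast hcon i
      exact (mul_eq_zero.mp h1).resolve_left hc0
    funext j
    have := congrFun h0 j
    simpa using this
  · intro i j
    rw [← hP i j, abs_mul]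
    have h1 := AA_abs hA k (M : ℝ) (N : ℝ) al Dl (nn k i) (w i) (hw i) (tot_nn k i) halr hMNr j
    calc |(4 : ℝ) ^ k * (Dl : ℝ) ^ (3 * k)| * |AA k N al (nn k i) (w i) j|
        ≤ (4 * (M : ℝ) ^ 9) ^ k * (2 ^ (3 * k) * (2 ^ (k + 1) * (2 * (N : ℝ)) ^ k)) :=
          mul_le_mul hcabs h1 (abs_nonneg _) (by positivity)
      _ = 2 * (128 * (M : ℝ) ^ 9 * (N : ℝ)) ^ k := by
          have h3 : (2 : ℝ) ^ (3 * k) = 8 ^ k := by
            rw [pow_mul]
            norm_num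
          rw [h3, pow_succ (2 : ℝ) k]
          have h4 : (128 * (M : ℝ) ^ 9 * (N : ℝ)) = (4 * (M : ℝ) ^ 9) * (8 * (2 * (2 * (N : ℝ)))) := by
            ring
          rw [h4, mul_pow (4 * (M : ℝ) ^ 9), mul_pow 8, mul_pow 2 (2 * (N : ℝ))]
          ring
  · intro i
    have h1 : ∑ j, (P i j : ℝ) * Real.sqrt (1 + (al j : ℝ) / (N : ℝ)) =
        (4 : ℝ) ^ k * (Dl : ℝ) ^ (3 * k) * val (w i) (nn k i) (tg k N al) := by
      rw [val_tg, Finset.mul_sum]
      apply Finset.sum_congr rfl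
      intro j _
      rw [← hP i j]
      ring
    rw [h1, abs_mul]
    have h2 := hE al Dl (nn k i) (w i) (M : ℝ) (N : ℝ) k hinj (hw i) (tot_nn k i) (nn_le k i)
      (fun j => (hal j).1) (fun j => (halr j).2) hMNr
    calc |(4 : ℝ) ^ k * (Dl : ℝ) ^ (3 * k)| * |val (w i) (nn k i) (tg k N al)|
        ≤ (4 * (M : ℝ) ^ 9) ^ k * (4 * (128 * (M : ℝ) ^ 3 / (N : ℝ) ^ 2) ^ k) :=
          mul_le_mul hcabs h2 (abs_nonneg _) (by positivity)
      _ = 4 * (512 * (M : ℝ) ^ 12 / (N : ℝ) ^ 2) ^ k := by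
          have h4 : (512 * (M : ℝ) ^ 12 / (N : ℝ) ^ 2) =
              (4 * (M : ℝ) ^ 9) * (128 * (M : ℝ) ^ 3 / (N : ℝ) ^ 2) := by
            ring
          rw [h4, mul_pow (4 * (M : ℝ) ^ 9)]
          ring

end Pool.Agent.W789.KT.A12
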