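import Mathlib
import Pool.Agent.W789.KT.Defs

set_option autoImplicit false

namespace Pool.Agent.W789.KT.B01

open Pool.Agent.W789.KT

theorem real_form (a A e d s x p : ℝ) (ha : 1 ≤ a) (hA : 0 < A) (he : 1 ≤ e) (hd : 1 ≤ d)
    (hs0 : 0 ≤ s) (hx0 : 0 ≤ x) (hp : A * a = p) (hs : a * e + 1 = s ^ 2)
    (hx : a * d + 1 = x ^ 2) :
    0 ≤ A * s * x - p * Real.sqrt (e * d) * Real.sqrt (1 + A / (p * e)) ∧
    A * s * x - p * Real.sqrt (e * d) * Real.sqrt (1 + A / (p * e)) ≤ p * Real.sqrt (e / d) := by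
  have ha0 : 0 < a := by linarith
  have he0 : 0 < e := by linarith
  have hd0 : 0 < d := by linarith
  have hp0 : 0 < p := by rw [← hp]; positivity
  obtain ⟨r, hr⟩ : ∃ r, r = Real.sqrt (a * d) := ⟨_, rfl⟩
  have hr2 : r ^ 2 = a * d := by rw [hr]; exact Real.sq_sqrt (by positivity)
  have hr0 : 0 < r := by rw [hr]; exact Real.sqrt_pos.2 (by positivity)
  have key : p * Real.sqrt (e * d) * Real.sqrt (1 + A / (p * e)) = A * s * r := by
    have h1 : 0 ≤ p * Real.sqrt (e * d) * Real.sqrt (1 + A / (p * e)) := by positivity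
    have h2 : 0 ≤ A * s * r := by positivity
    refine (sq_eq_sq₀ h1 h2).1 ?_
    rw [mul_pow, mul_pow, mul_pow, mul_pow, Real.sq_sqrt (by positivity),
      Real.sq_sqrt (by positivity), hr2, ← hs, ← hp]
    field_simp
  rw [key]
  have h3 : A * s * x - A * s * r = A * s * (x - r) := by ring
  rw [h3]
  have hxr : r ≤ x := by nlinarith
  have hmul : (x - r) * (x + r) = 1 := by nlinarith
  refine ⟨by have := mul_nonneg (mul_nonneg hA.le hs0) (sub_nonneg.2 hxr); exact this, ?_⟩
  obtain ⟨q, hq⟩ : ∃ q, q = Real.sqrt (e / d) := ⟨_, rfl⟩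
  have hq2 : q ^ 2 = e / d := by rw [hq]; exact Real.sq_sqrt (by positivity)
  have hq0 : 0 < q := by rw [hq]; exact Real.sqrt_pos.2 (by positivity)
  rw [← hq, ← hp]
  obtain ⟨y, hy⟩ : ∃ y, y = q * r := ⟨_, rfl⟩
  have hy2 : y ^ 2 = a * e := by
    rw [hy, mul_pow, hq2, hr2]
    field_simp
  have hy0 : 0 < y := by rw [hy]; positivity
  have h4 : s ≤ 2 * a * y := by
    by_contra hcon
    push Not at hcon
    have h5 : (2 * a * y) ^ 2 < s ^ 2 := pow_lt_pow_left₀ hcon (by positivity) (by norm_num)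
    have h6 : 1 ≤ y ^ 2 := by rw [hy2]; nlinarith
    have h7 : 1 ≤ a ^ 2 := by nlinarith
    have h8 : (2 * a * y) ^ 2 = 4 * (a ^ 2 * y ^ 2) := by ring
    have h9 : y ^ 2 ≤ a ^ 2 * y ^ 2 := by nlinarith
    rw [h8, ← hs, ← hy2] at h5
    linarith
  have h5 : s ≤ a * q * (x + r) := by
    have h6 : 2 * a * y ≤ a * q * (x + r) := by
      rw [hy]
      have : 0 ≤ a * q * (x - r) := by
        have := sub_nonneg.2 hxr
        positivity
      nlinarith
    linarith
  have h6 : s * (x - r) ≤ a * q := by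
    have h7 := mul_le_mul_of_nonneg_right h5 (sub_nonneg.2 hxr)
    have h8 : a * q * (x + r) * (x - r) = a * q * ((x - r) * (x + r)) := by ring
    rw [h8, hmul, mul_one] at h7
    exact h7
  have h7 := mul_le_mul_of_nonneg_left h6 hA.le
  linarith

theorem pf : ApproxStm := by
  intro a al e d s x p ha he hd hp0 hp hs hx j
  have hal : 0 < al j := by
    rcases Nat.eq_zero_or_pos (al j) with h | h
    · have := hp j
      rw [h] at this
      omega
    · exact h
  have h := real_form (a j : ℝ) (al j : ℝ) (e : ℝ) (d : ℝ) (s j : ℝ) (x j : ℝ) (p : ℝ)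
    (by exact_mod_cast ha j) (by exact_mod_cast hal) (by exact_mod_cast he)
    (by exact_mod_cast hd) (Nat.cast_nonneg _) (Nat.cast_nonneg _) (by exact_mod_cast hp j)
    (by exact_mod_cast hs j) (by exact_mod_cast hx j)
  push_cast
  exact h

end Pool.Agent.W789.KT.B01
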