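import Mathlib
import Pool.Agent.W789.KT.Defs

set_option autoImplicit false

namespace Pool.Agent.W789.KT.B02

open Pool.Agent.W789.KT

theorem pf : ChoiceStm := by
  intro e d he hd
  have he1 : 1 ≤ e := by omega
  have hd1 : 1 ≤ d := le_trans (Nat.one_le_pow _ _ he1) hd
  have hex : ∃ k : ℕ, d ^ 2 * e ^ 3 < e ^ (7 * k) := by
    refine ⟨d ^ 2 * e ^ 3, ?_⟩
    calc d ^ 2 * e ^ 3 < 2 ^ (d ^ 2 * e ^ 3) := Nat.lt_two_pow_self
      _ ≤ e ^ (d ^ 2 * e ^ 3) := Nat.pow_le_pow_left he _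
      _ ≤ e ^ (7 * (d ^ 2 * e ^ 3)) := Nat.pow_le_pow_right he1 (by omega)
  classical
  have hspec := Nat.find_spec hex
  have hmin : ∀ m < Nat.find hex, ¬ d ^ 2 * e ^ 3 < e ^ (7 * m) := fun m hm => Nat.find_min hex hm
  generalize Nat.find hex = k at hspec hmin
  have hk : 1 ≤ k := by
    by_contra hk0
    have : k = 0 := by omega
    subst this
    have h1 : 1 ≤ d ^ 2 * e ^ 3 := Nat.one_le_iff_ne_zero.2 (by positivity)
    simp at hspec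
    omega
  refine ⟨k, hk, hspec, ?_⟩
  obtain ⟨m, rfl⟩ : ∃ m, k = m + 1 := ⟨k - 1, by omega⟩
  have h2 : e ^ (7 * m) ≤ d ^ 2 * e ^ 3 := not_lt.1 (hmin m (by omega))
  have h3 : e ^ (7 * (m + 1)) ≤ d ^ 2 * e ^ 10 := by
    calc e ^ (7 * (m + 1)) = e ^ (7 * m) * e ^ 7 := by ring
      _ ≤ d ^ 2 * e ^ 3 * e ^ 7 := Nat.mul_le_mul_right _ h2
      _ = d ^ 2 * e ^ 10 := by ring
  have h4 : (e ^ (5 * (m + 1) + 3)) ^ 7 < (d ^ 2) ^ 7 := by
    calc (e ^ (5 * (m + 1) + 3)) ^ 7 = (e ^ (7 * (m + 1))) ^ 5 * e ^ 21 := by ring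
      _ ≤ (d ^ 2 * e ^ 10) ^ 5 * e ^ 21 := Nat.mul_le_mul_right _ (Nat.pow_le_pow_left h3 5)
      _ = d ^ 10 * e ^ 71 := by ring
      _ < d ^ 10 * e ^ 72 := by
          apply Nat.mul_lt_mul_of_pos_left _ (by positivity)
          exact Nat.pow_lt_pow_right (by omega) (by norm_num)
      _ = d ^ 10 * (e ^ 18) ^ 4 := by ring
      _ ≤ d ^ 10 * d ^ 4 := Nat.mul_le_mul_left _ (Nat.pow_le_pow_left hd 4)
      _ = (d ^ 2) ^ 7 := by ring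
  exact lt_of_pow_lt_pow_left₀ 7 (Nat.zero_le _) h4

end Pool.Agent.W789.KT.B02
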