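import Mathlib
import Pool.Agent.W789.KT.Defs

set_option autoImplicit false

namespace Pool.Agent.W789.KT.B03

open Pool.Agent.W789.KT

theorem pf : NumAStm := by
  intro H e d k p hH hk he hd hp _ h
  set E : ℝ := (e : ℝ) with hEdef
  set D : ℝ := (d : ℝ) with hDdef
  set P : ℝ := (p : ℝ) with hPdef
  set Kr : ℝ := 512 * ((H : ℝ) ^ 2) ^ 12 with hKrdef
  have hHr : (1 : ℝ) ≤ (H : ℝ) := by exact_mod_cast hH
  have hP : (1 : ℝ) ≤ P := by rw [hPdef]; exact_mod_cast hp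
  have hD : (1 : ℝ) ≤ D := by rw [hDdef]; exact_mod_cast hd
  have heE : (2 : ℝ) ^ 36 * (H : ℝ) ^ 96 ≤ E := by rw [hEdef]; exact_mod_cast he
  have hK4 : Kr ^ 4 ≤ E := by
    have : Kr ^ 4 = (2 : ℝ) ^ 36 * (H : ℝ) ^ 96 := by rw [hKrdef]; ring
    rw [this]; exact heE
  have hE : (4096 : ℝ) ≤ E := by
    have h1 : (1 : ℝ) ≤ (H : ℝ) ^ 96 := one_le_pow₀ hHr
    have h2 : (4096 : ℝ) ≤ 2 ^ 36 * (H : ℝ) ^ 96 := by
      have : (4096 : ℝ) ≤ 2 ^ 36 * 1 := by norm_num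
      nlinarith
    linarith
  have hE0 : (0 : ℝ) < E := by linarith
  have hP0 : (0 : ℝ) < P := by linarith
  have hD0 : (0 : ℝ) < D := by linarith
  have hKr0 : 0 ≤ Kr := by positivity
  have hlt : D ^ 2 * E ^ 3 < E ^ (7 * k) := by rw [hEdef, hDdef]; exact_mod_cast h
  by_contra hcon
  push Not at hcon
  have hx4 : (1 / 2 : ℝ) ^ 4 ≤ (P * Real.sqrt (E * D) * (4 * (Kr / (P * E) ^ 2) ^ k)) ^ 4 :=
    pow_le_pow_left₀ (by norm_num) hcon 4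
  have hs : Real.sqrt (E * D) ^ 4 = (E * D) ^ 2 := by
    have : Real.sqrt (E * D) ^ 2 = E * D := Real.sq_sqrt (by positivity)
    calc Real.sqrt (E * D) ^ 4 = (Real.sqrt (E * D) ^ 2) ^ 2 := by ring
      _ = (E * D) ^ 2 := by rw [this]
  have hexp : (P * Real.sqrt (E * D) * (4 * (Kr / (P * E) ^ 2) ^ k)) ^ 4
      = 256 * P ^ 4 * (E * D) ^ 2 * ((Kr / (P * E) ^ 2) ^ 4) ^ k := by
    have : ((Kr / (P * E) ^ 2) ^ k) ^ 4 = ((Kr / (P * E) ^ 2) ^ 4) ^ k := by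
      rw [← pow_mul, ← pow_mul, Nat.mul_comm k 4]
    calc (P * Real.sqrt (E * D) * (4 * (Kr / (P * E) ^ 2) ^ k)) ^ 4
        = 256 * P ^ 4 * Real.sqrt (E * D) ^ 4 * ((Kr / (P * E) ^ 2) ^ k) ^ 4 := by ring
      _ = _ := by rw [hs, this]
  have hb : (Kr / (P * E) ^ 2) ^ 4 ≤ 1 / (P ^ 8 * E ^ 7) := by
    rw [div_pow, div_le_div_iff₀ (by positivity) (by positivity)]
    have : Kr ^ 4 * (P ^ 8 * E ^ 7) ≤ E * (P ^ 8 * E ^ 7) :=
      mul_le_mul_of_nonneg_right hK4 (by positivity)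
    calc Kr ^ 4 * (P ^ 8 * E ^ 7) ≤ E * (P ^ 8 * E ^ 7) := this
      _ = 1 * ((P * E) ^ 2) ^ 4 := by ring
  have hbk : ((Kr / (P * E) ^ 2) ^ 4) ^ k ≤ 1 / (P ^ 4 * E ^ (7 * k)) := by
    have h1 : ((Kr / (P * E) ^ 2) ^ 4) ^ k ≤ (1 / (P ^ 8 * E ^ 7)) ^ k :=
      pow_le_pow_left₀ (by positivity) hb k
    have h2 : (1 / (P ^ 8 * E ^ 7)) ^ k = 1 / (P ^ (8 * k) * E ^ (7 * k)) := by
      rw [div_pow, one_pow, mul_pow, ← pow_mul, ← pow_mul]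
    have h3 : P ^ 4 ≤ P ^ (8 * k) := pow_le_pow_right₀ hP (by omega)
    calc ((Kr / (P * E) ^ 2) ^ 4) ^ k ≤ 1 / (P ^ (8 * k) * E ^ (7 * k)) := by rw [← h2]; exact h1
      _ ≤ 1 / (P ^ 4 * E ^ (7 * k)) := by
        apply one_div_le_one_div_of_le (by positivity)
        exact mul_le_mul_of_nonneg_right h3 (by positivity)
  have hfin : (P * Real.sqrt (E * D) * (4 * (Kr / (P * E) ^ 2) ^ k)) ^ 4 < (1 / 2 : ℝ) ^ 4 := by
    rw [hexp]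
    calc 256 * P ^ 4 * (E * D) ^ 2 * ((Kr / (P * E) ^ 2) ^ 4) ^ k
        ≤ 256 * P ^ 4 * (E * D) ^ 2 * (1 / (P ^ 4 * E ^ (7 * k))) :=
          mul_le_mul_of_nonneg_left hbk (by positivity)
      _ = 256 * (D ^ 2 * E ^ 2) / E ^ (7 * k) := by field_simp
      _ < (1 / 2 : ℝ) ^ 4 := by
        rw [div_lt_iff₀ (by positivity)]
        have h4 : 4096 * (D ^ 2 * E ^ 2) ≤ D ^ 2 * E ^ 3 := by
          have : 0 ≤ D ^ 2 * E ^ 2 := by positivity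
          nlinarith
        nlinarith
  linarith

end Pool.Agent.W789.KT.B03
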