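import Mathlib
import Pool.Agent.W789.KT.Defs

set_option autoImplicit false

namespace Pool.Agent.W789.KT.B05

open Pool.Agent.W789.KT

theorem pf (hP : PadeStm) (hA : ApproxStm) (hC : ChoiceStm) (hNA : NumAStm) (hNB : NumBStm) :
    TStm := by
  intro a H e d hinj ha hHe hed hse hsd
  have ha0 : ∀ j, 0 < a j := fun j => (ha j).1
  have haH : ∀ j, a j ≤ H := fun j => (ha j).2
  have hH1 : 1 ≤ H := le_trans (ha0 0) (haH 0)
  have hHpow : ∀ n : ℕ, 1 ≤ H ^ n := fun n => Nat.one_le_pow n H hH1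
  have he36 : 2 ^ 36 ≤ e := by
    calc 2 ^ 36 = 2 ^ 36 * 1 := by norm_num
      _ ≤ 2 ^ 36 * H ^ 96 := Nat.mul_le_mul_left _ (hHpow 96)
      _ ≤ e := hHe
  have he2 : 2 ≤ e := le_trans (by norm_num) he36
  have he0 : 0 < e := by omega
  have hd0 : 0 < d := lt_of_lt_of_le (pow_pos he0 18) hed
  choose s hs using hse
  choose x hx using hsd
  have hs2 : ∀ j, a j * e + 1 = s j ^ 2 := fun j => by rw [hs j]; ring
  have hx2 : ∀ j, a j * d + 1 = x j ^ 2 := fun j => by rw [hx j]; ring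
  have hs0 : ∀ j, 0 < s j := fun j => by
    rcases Nat.eq_zero_or_pos (s j) with h | h
    · have := hs2 j
      rw [h] at this
      simp at this
    · exact h
  have hx0 : ∀ j, 0 < x j := fun j => by
    rcases Nat.eq_zero_or_pos (x j) with h | h
    · have := hx2 j
      rw [h] at this
      simp at this
    · exact h
  set p : ℕ := a 0 * a 1 * a 2 with hp
  let al : Fin 3 → ℕ := ![a 1 * a 2, a 0 * a 2, a 0 * a 1]
  have halp : ∀ j, al j * a j = p := by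
    intro j
    fin_cases j
    · change a 1 * a 2 * a 0 = p
      rw [hp]; ring
    · change a 0 * a 2 * a 1 = p
      rw [hp]; ring
    · change a 0 * a 1 * a 2 = p
      rw [hp]
  have hp0 : 0 < p := by
    rw [hp]
    exact Nat.mul_pos (Nat.mul_pos (ha0 0) (ha0 1)) (ha0 2)
  have hpH : p ≤ H ^ 3 := by
    rw [hp]
    calc a 0 * a 1 * a 2 ≤ H * H * H :=
          Nat.mul_le_mul (Nat.mul_le_mul (haH 0) (haH 1)) (haH 2)
      _ = H ^ 3 := by ring
  have hal0 : ∀ j, 1 ≤ al j := fun j => by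
    rcases Nat.eq_zero_or_pos (al j) with h | h
    · have := halp j
      rw [h] at this
      omega
    · exact h
  have halH : ∀ j, al j ≤ H ^ 2 := by
    intro j
    fin_cases j
    · change a 1 * a 2 ≤ H ^ 2
      calc a 1 * a 2 ≤ H * H := Nat.mul_le_mul (haH 1) (haH 2)
        _ = H ^ 2 := by ring
    · change a 0 * a 2 ≤ H ^ 2
      calc a 0 * a 2 ≤ H * H := Nat.mul_le_mul (haH 0) (haH 2)
        _ = H ^ 2 := by ring
    · change a 0 * a 1 ≤ H ^ 2
      calc a 0 * a 1 ≤ H * H := Nat.mul_le_mul (haH 0) (haH 1)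
        _ = H ^ 2 := by ring
  have halinj : Function.Injective al := by
    intro i j hij
    have h1 := halp i
    have h2 := halp j
    rw [hij] at h1
    have h3 : al j * a i = al j * a j := by rw [h1, h2]
    exact hinj (Nat.eq_of_mul_eq_mul_left (hal0 j) h3)
  obtain ⟨k, hk1, hk2, hk3⟩ := hC e d he2 hed
  have hN4 : 4 * H ^ 2 ≤ p * e := by
    have h1 : H ^ 2 ≤ H ^ 96 := Nat.pow_le_pow_right hH1 (by norm_num)
    calc 4 * H ^ 2 ≤ 2 ^ 36 * H ^ 96 := Nat.mul_le_mul (by norm_num) h1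
      _ ≤ e := hHe
      _ = 1 * e := (one_mul e).symm
      _ ≤ p * e := Nat.mul_le_mul_right e hp0
  obtain ⟨P, hP1, hP2, hP3⟩ := hP (fun j => (al j : ℤ)) ((H : ℤ) ^ 2) ((p : ℤ) * e)
    (fun i j hij => halinj (by
      have h : ((al i : ℕ) : ℤ) = ((al j : ℕ) : ℤ) := hij
      exact_mod_cast h))
    (fun j => ⟨by exact_mod_cast hal0 j, by exact_mod_cast halH j⟩)
    (by exact_mod_cast hN4) k hk1
  have hq : (fun j => ((al j * s j * x j : ℕ) : ℤ)) ≠ 0 := by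
    intro h
    have h0 := congrFun h 0
    have h1 : al 0 * s 0 * x 0 = 0 := by
      have h2 : ((al 0 * s 0 * x 0 : ℕ) : ℤ) = 0 := h0
      exact_mod_cast h2
    have h2 : 0 < al 0 * s 0 * x 0 := Nat.mul_pos (Nat.mul_pos (hal0 0) (hs0 0)) (hx0 0)
    omega
  obtain ⟨i, hi⟩ := hP1 _ hq
  have hA' := hA a al e d s x p ha0 he0 hd0 hp0 halp hs2 hx2
  have hNA' := hNA H e d k p hH1 hk1 hHe hd0 hp0 hpH hk2
  have hNB' := hNB H e d k p hH1 hk1 hHe hd0 hp0 hpH hk3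
  have hP3i := hP3 i
  have hP2i := hP2 i
  push_cast at hP3i hP2i
  set lam : ℝ := (p : ℝ) * Real.sqrt ((e : ℝ) * d) with hlam
  set E : ℝ := (p : ℝ) * Real.sqrt ((e : ℝ) / d) with hE
  set B : ℝ := 2 * (128 * ((H : ℝ) ^ 2) ^ 9 * ((p : ℝ) * e)) ^ k with hB
  set C : ℝ := 4 * (512 * ((H : ℝ) ^ 2) ^ 12 / ((p : ℝ) * e) ^ 2) ^ k with hCC
  let th : Fin 3 → ℝ := fun j => Real.sqrt (1 + (al j : ℝ) / ((p : ℝ) * e))
  let ep : Fin 3 → ℝ := fun j => ((al j * s j * x j : ℕ) : ℝ) - lam * th j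
  have hep0 : ∀ j, 0 ≤ ep j := fun j => (hA' j).1
  have hepE : ∀ j, ep j ≤ E := fun j => (hA' j).2
  have hlam0 : 0 ≤ lam := mul_nonneg (Nat.cast_nonneg p) (Real.sqrt_nonneg _)
  have hB0 : 0 ≤ B := le_trans (abs_nonneg _) (hP2i 0)
  have h1 : (1 : ℝ) ≤ |∑ j, (P i j : ℝ) * ((al j * s j * x j : ℕ) : ℝ)| := by
    have h2 : (1 : ℤ) ≤ |∑ j, P i j * ((al j * s j * x j : ℕ) : ℤ)| := Int.one_le_abs hi
    have h3 : ((1 : ℤ) : ℝ) ≤ ((|∑ j, P i j * ((al j * s j * x j : ℕ) : ℤ)| : ℤ) : ℝ) := by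
      exact_mod_cast h2
    rw [Int.cast_abs] at h3
    have h4 : ((∑ j, P i j * ((al j * s j * x j : ℕ) : ℤ) : ℤ) : ℝ)
        = ∑ j, (P i j : ℝ) * ((al j * s j * x j : ℕ) : ℝ) := by
      rw [Int.cast_sum]
      refine Finset.sum_congr rfl fun j _ => ?_
      rw [Int.cast_mul, Int.cast_natCast]
    rw [h4] at h3
    simpa using h3
  have h2 : ∑ j, (P i j : ℝ) * ((al j * s j * x j : ℕ) : ℝ)
      = lam * (∑ j, (P i j : ℝ) * th j) + ∑ j, (P i j : ℝ) * ep j := by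
    rw [Finset.mul_sum, ← Finset.sum_add_distrib]
    refine Finset.sum_congr rfl fun j _ => ?_
    change _ = lam * ((P i j : ℝ) * th j)
      + (P i j : ℝ) * (((al j * s j * x j : ℕ) : ℝ) - lam * th j)
    ring
  have h3 : |∑ j, (P i j : ℝ) * th j| ≤ C := hP3i
  have h4 : |∑ j, (P i j : ℝ) * ep j| ≤ 3 * (B * E) := by
    calc |∑ j, (P i j : ℝ) * ep j| ≤ ∑ j, |(P i j : ℝ) * ep j| :=
          Finset.abs_sum_le_sum_abs _ _
      _ ≤ ∑ _j : Fin 3, B * E := by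
          refine Finset.sum_le_sum fun j _ => ?_
          rw [abs_mul, abs_of_nonneg (hep0 j)]
          exact mul_le_mul (hP2i j) (hepE j) (hep0 j) hB0
      _ = 3 * (B * E) := by
          rw [Finset.sum_const, Finset.card_univ, Fintype.card_fin, nsmul_eq_mul]
          norm_num
  have h5 : |∑ j, (P i j : ℝ) * ((al j * s j * x j : ℕ) : ℝ)| ≤ lam * C + 3 * (B * E) := by
    rw [h2]
    calc |lam * (∑ j, (P i j : ℝ) * th j) + ∑ j, (P i j : ℝ) * ep j|
        ≤ |lam * (∑ j, (P i j : ℝ) * th j)| + |∑ j, (P i j : ℝ) * ep j| := abs_add_le _ _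
      _ ≤ lam * C + 3 * (B * E) := by
          rw [abs_mul, abs_of_nonneg hlam0]
          exact add_le_add (mul_le_mul_of_nonneg_left h3 hlam0) h4
  linarith

end Pool.Agent.W789.KT.B05
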