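import Mathlib
import Pool.Agent.W789.KT.Defs

/-! Project KT, part C01: nonvanishing of the determinant of square roots. -/

set_option autoImplicit false

namespace Pool.Agent.W789.KT.C01

open Pool.Agent.W789.KT

theorem quad_zero (c2 c1 c0 x y z : ℝ) (hxy : x ≠ y) (hxz : x ≠ z) (hyz : y ≠ z)
    (hx : c2 * x ^ 2 + c1 * x + c0 = 0) (hy : c2 * y ^ 2 + c1 * y + c0 = 0)
    (hz : c2 * z ^ 2 + c1 * z + c0 = 0) : c2 = 0 ∧ c1 = 0 ∧ c0 = 0 := by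
  have h1 : c2 * (x + y) + c1 = 0 := by
    have : (x - y) * (c2 * (x + y) + c1) = 0 := by linear_combination hx - hy
    exact (mul_eq_zero.mp this).resolve_left (sub_ne_zero.mpr hxy)
  have h2 : c2 * (x + z) + c1 = 0 := by
    have : (x - z) * (c2 * (x + z) + c1) = 0 := by linear_combination hx - hz
    exact (mul_eq_zero.mp this).resolve_left (sub_ne_zero.mpr hxz)
  have h3 : c2 = 0 := by
    have : (y - z) * c2 = 0 := by linear_combination h1 - h2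
    exact (mul_eq_zero.mp this).resolve_left (sub_ne_zero.mpr hyz)
  subst h3
  have h4 : c1 = 0 := by linarith
  subst h4
  exact ⟨rfl, rfl, by linarith⟩

theorem sq_rel (p0 p1 p2 f0 f1 f2 : ℝ) (h0 : 0 ≤ f0) (h1 : 0 ≤ f1) (h2 : 0 ≤ f2)
    (h : p0 * Real.sqrt f0 + p1 * Real.sqrt f1 + p2 * Real.sqrt f2 = 0) :
    (p2 ^ 2 * f2 - p0 ^ 2 * f0 - p1 ^ 2 * f1) ^ 2 - 4 * p0 ^ 2 * p1 ^ 2 * f0 * f1 = 0 := by
  have e0 := Real.sq_sqrt h0
  have e1 := Real.sq_sqrt h1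
  have e2 := Real.sq_sqrt h2
  set s0 := Real.sqrt f0
  set s1 := Real.sqrt f1
  set s2 := Real.sqrt f2
  rw [← e0, ← e1, ← e2]
  have h' : p2 * s2 = -(p0 * s0 + p1 * s1) := by linarith
  have : p2 ^ 2 * s2 ^ 2 = (p0 * s0 + p1 * s1) ^ 2 := by
    rw [← mul_pow, h']; ring
  rw [this]
  ring

theorem final (p0 p1 p2 a0 a1 a2 : ℝ) (h01 : a0 ≠ a1) (h02 : a0 ≠ a2) (h12 : a1 ≠ a2)
    (c2 : (p2 ^ 2 * a2 - p0 ^ 2 * a0 - p1 ^ 2 * a1) ^ 2 - 4 * p0 ^ 2 * p1 ^ 2 * (a0 * a1) = 0)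
    (c1 : 2 * (p2 ^ 2 * a2 - p0 ^ 2 * a0 - p1 ^ 2 * a1) * (p2 ^ 2 - p0 ^ 2 - p1 ^ 2)
      - 4 * p0 ^ 2 * p1 ^ 2 * (a0 + a1) = 0)
    (c0 : (p2 ^ 2 - p0 ^ 2 - p1 ^ 2) ^ 2 - 4 * p0 ^ 2 * p1 ^ 2 = 0) :
    p0 = 0 ∧ p1 = 0 ∧ p2 = 0 := by
  set l1 := p2 ^ 2 * a2 - p0 ^ 2 * a0 - p1 ^ 2 * a1 with hl1
  set l0 := p2 ^ 2 - p0 ^ 2 - p1 ^ 2 with hl0
  have key : (p0 * p1) ^ 4 * (a0 - a1) ^ 2 = 0 := by
    have e1 : l1 ^ 2 = 4 * p0 ^ 2 * p1 ^ 2 * (a0 * a1) := by linarith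
    have e0 : l0 ^ 2 = 4 * p0 ^ 2 * p1 ^ 2 := by linarith
    have e2 : 2 * l1 * l0 = 4 * p0 ^ 2 * p1 ^ 2 * (a0 + a1) := by linarith
    have e3 : (2 * l1 * l0) ^ 2 = 4 * l1 ^ 2 * l0 ^ 2 := by ring
    rw [e2, e1, e0] at e3
    linear_combination (1 / 16 : ℝ) * e3
  have h4 : p0 * p1 = 0 := by
    rcases mul_eq_zero.mp key with h | h
    · exact pow_eq_zero_iff (by norm_num) |>.mp h
    · exact absurd (sub_eq_zero.mp (pow_eq_zero_iff (by norm_num) |>.mp h)) h01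
  have h5 : p0 ^ 2 * p1 ^ 2 = 0 := by rw [← mul_pow, h4]; norm_num
  have z1 : l1 = 0 := by
    have : l1 ^ 2 = 0 := by linear_combination c2 + 4 * (a0 * a1) * h5
    exact pow_eq_zero_iff (by norm_num) |>.mp this
  have z0 : l0 = 0 := by
    have : l0 ^ 2 = 0 := by linear_combination c0 + 4 * h5
    exact pow_eq_zero_iff (by norm_num) |>.mp this
  rcases mul_eq_zero.mp h4 with h | h
  · subst h
    have hp1 : p1 ^ 2 * (a2 - a1) = 0 := by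
      rw [hl1] at z1; rw [hl0] at z0
      linear_combination z1 - a2 * z0
    have hp1' : p1 = 0 := by
      rcases mul_eq_zero.mp hp1 with h | h
      · exact pow_eq_zero_iff (by norm_num) |>.mp h
      · exact absurd (sub_eq_zero.mp h).symm h12
    subst hp1'
    refine ⟨rfl, rfl, ?_⟩
    have : p2 ^ 2 = 0 := by rw [hl0] at z0; linear_combination z0
    exact pow_eq_zero_iff (by norm_num) |>.mp this
  · subst h
    have hp0 : p0 ^ 2 * (a2 - a0) = 0 := by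
      rw [hl1] at z1; rw [hl0] at z0
      linear_combination z1 - a2 * z0
    have hp0' : p0 = 0 := by
      rcases mul_eq_zero.mp hp0 with h | h
      · exact pow_eq_zero_iff (by norm_num) |>.mp h
      · exact absurd (sub_eq_zero.mp h).symm h02
    subst hp0'
    refine ⟨rfl, rfl, ?_⟩
    have : p2 ^ 2 = 0 := by rw [hl0] at z0; linear_combination z0
    exact pow_eq_zero_iff (by norm_num) |>.mp this

theorem pf : DetNZStm := by
  intro a b ha hb hai hbi hdet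
  obtain ⟨p, hp, hv⟩ := Matrix.exists_vecMul_eq_zero_iff.mpr hdet
  have h : ∀ j, p 0 * Real.sqrt (a 0 * b j + 1) + p 1 * Real.sqrt (a 1 * b j + 1)
      + p 2 * Real.sqrt (a 2 * b j + 1) = 0 := by
    intro j
    have := congrFun hv j
    simpa [Matrix.vecMul, dotProduct, Fin.sum_univ_three, mx] using this
  have hpos : ∀ i j, 0 ≤ a i * b j + 1 := fun i j => by
    have := mul_pos (ha i) (hb j)
    linarith
  have hq : ∀ j, ((p 2 ^ 2 * a 2 - p 0 ^ 2 * a 0 - p 1 ^ 2 * a 1) ^ 2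
        - 4 * p 0 ^ 2 * p 1 ^ 2 * (a 0 * a 1)) * b j ^ 2
      + (2 * (p 2 ^ 2 * a 2 - p 0 ^ 2 * a 0 - p 1 ^ 2 * a 1) * (p 2 ^ 2 - p 0 ^ 2 - p 1 ^ 2)
        - 4 * p 0 ^ 2 * p 1 ^ 2 * (a 0 + a 1)) * b j
      + ((p 2 ^ 2 - p 0 ^ 2 - p 1 ^ 2) ^ 2 - 4 * p 0 ^ 2 * p 1 ^ 2) = 0 := by
    intro j
    have := sq_rel (p 0) (p 1) (p 2) _ _ _ (hpos 0 j) (hpos 1 j) (hpos 2 j) (h j)
    linear_combination this
  have d01 : b 0 ≠ b 1 := fun e => by simpa using hbi e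
  have d02 : b 0 ≠ b 2 := fun e => by simpa using hbi e
  have d12 : b 1 ≠ b 2 := fun e => by simpa using hbi e
  have e01 : a 0 ≠ a 1 := fun e => by simpa using hai e
  have e02 : a 0 ≠ a 2 := fun e => by simpa using hai e
  have e12 : a 1 ≠ a 2 := fun e => by simpa using hai e
  obtain ⟨c2, c1, c0⟩ := quad_zero _ _ _ _ _ _ d01 d02 d12 (hq 0) (hq 1) (hq 2)
  obtain ⟨z0, z1, z2⟩ := final _ _ _ _ _ _ e01 e02 e12 c2 c1 c0
  apply hp
  funext i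
  fin_cases i
  · exact z0
  · exact z1
  · exact z2

end Pool.Agent.W789.KT.C01
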