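import Mathlib
import Pool.Agent.W789.KT.Defs

namespace Pool.Agent.W789.KT.C02

open Pool.Agent.W789.KT

theorem one (a b0 b1 b2 : ℝ) (ha : 0 < a) (h0 : 0 < b0) (h1 : 0 < b1) (h2 : 0 < b2) :
    ∃ κ ω : ℝ, (0 ≤ κ ∧ κ ≤ 1 / 2) ∧ (0 ≤ ω ∧ ω ≤ 1 / 8) ∧
      Real.sqrt (1 + a * b0) = Real.sqrt (1 + a * b2) + (b0 - b2) * (a * κ) ∧
      Real.sqrt (1 + a * b1) = Real.sqrt (1 + a * b2) +
        (b1 - b2) * (a * (κ + a * (b0 - b1) * ω)) := by
  have s0 : Real.sqrt (1 + a * b0) ^ 2 = 1 + a * b0 := Real.sq_sqrt (by positivity)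
  have s1 : Real.sqrt (1 + a * b1) ^ 2 = 1 + a * b1 := Real.sq_sqrt (by positivity)
  have s2 : Real.sqrt (1 + a * b2) ^ 2 = 1 + a * b2 := Real.sq_sqrt (by positivity)
  have g0 : 1 ≤ Real.sqrt (1 + a * b0) := Real.one_le_sqrt.mpr (by nlinarith [mul_pos ha h0])
  have g1 : 1 ≤ Real.sqrt (1 + a * b1) := Real.one_le_sqrt.mpr (by nlinarith [mul_pos ha h1])
  have g2 : 1 ≤ Real.sqrt (1 + a * b2) := Real.one_le_sqrt.mpr (by nlinarith [mul_pos ha h2])
  generalize Real.sqrt (1 + a * b0) = x at *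
  generalize Real.sqrt (1 + a * b1) = y at *
  generalize Real.sqrt (1 + a * b2) = z at *
  have p1 : 2 ≤ x + z := by linarith
  have p2 : 2 ≤ x + y := by linarith
  have p3 : 2 ≤ y + z := by linarith
  have q1 : 0 < x + z := by linarith
  have q2 : 0 < x + y := by linarith
  have q3 : 0 < y + z := by linarith
  refine ⟨1 / (x + z), 1 / ((x + y) * (x + z) * (y + z)), ⟨by positivity, ?_⟩,
    ⟨by positivity, ?_⟩, ?_, ?_⟩
  · exact one_div_le_one_div_of_le (by norm_num) p1
  · apply one_div_le_one_div_of_le (by norm_num)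
    have h4 : (2 : ℝ) * 2 ≤ (x + y) * (x + z) := by gcongr
    have h5 : (2 : ℝ) * 2 * 2 ≤ (x + y) * (x + z) * (y + z) := by gcongr
    linarith
  · have e : a * (b0 - b2) = (x - z) * (x + z) := by linear_combination s2 - s0
    field_simp
    linear_combination -e
  · have e1 : a * (b1 - b2) = (y - z) * (y + z) := by linear_combination s2 - s1
    have e2 : a * (b0 - b1) = (x - y) * (x + y) := by linear_combination s1 - s0
    have e3 : 1 / (x + z) + a * (b0 - b1) * (1 / ((x + y) * (x + z) * (y + z))) =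
        1 / (y + z) := by
      rw [e2]
      field_simp
      ring
    rw [e3]
    field_simp
    linear_combination -e1

theorem pf : FacStm := by
  intro A B hA hB
  choose ka om hk ho e0 e1 using fun i => one (A i) (B 0) (B 1) (B 2) (hA i) (hB 0) (hB 1) (hB 2)
  refine ⟨ka, om, hk, ho, ?_⟩
  rw [Matrix.det_fin_three, Matrix.det_fin_three]
  simp only [Matrix.of_apply, Matrix.cons_val_zero, Matrix.cons_val_one, Matrix.cons_val]
  rw [e0 0, e0 1, e0 2, e1 0, e1 1, e1 2]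
  ring

end Pool.Agent.W789.KT.C02
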