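import Mathlib
import Pool.Agent.W789.KT.Defs

/-!
Project KT (helper789): the bound of the 3x3 determinant.
-/

set_option autoImplicit false

namespace Pool.Agent.W789.KT.C03

open Pool.Agent.W789.KT

lemma term_le {x y t X Y P : ℝ} (hx0 : 0 ≤ x) (hx : x ≤ X / 2) (hy0 : 0 ≤ y) (hy : y ≤ Y / 8)
    (ht0 : 0 ≤ t) (ht : t ≤ 3 / 2) (hP : X * Y ≤ P) :
    0 ≤ x * y * t ∧ x * y * t ≤ 3 / 32 * P := by
  refine ⟨by positivity, ?_⟩
  have h1 : x * y ≤ X / 2 * (Y / 8) := mul_le_mul hx hy hy0 (hx0.trans hx)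
  have h2 : x * y * t ≤ X / 2 * (Y / 8) * (3 / 2) :=
    mul_le_mul h1 ht ht0 (by
      have := hx0.trans hx
      have := hy0.trans hy
      positivity)
  linarith

theorem pf (hF : FacStm) : DetBoundStm := by
  intro a b ha0 ha1 ha2 hb0 hb1 hb2
  have hapos : ∀ i, 0 < a i := by
    intro i
    fin_cases i
    · show 0 < a 0
      linarith
    · show 0 < a 1
      linarith
    · show 0 < a 2
      linarith
  have hbpos : ∀ i, 0 < b i := by
    intro i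
    fin_cases i
    · show 0 < b 0
      linarith
    · show 0 < b 1
      linarith
    · show 0 < b 2
      linarith
  have hApos : ∀ i, 0 < 1 / a i := fun i => one_div_pos.2 (hapos i)
  have hBpos : ∀ i, 0 < 1 / b i := fun i => one_div_pos.2 (hbpos i)
  obtain ⟨ka, om, hka, hom, hdet⟩ := hF (fun i => 1 / a i) (fun i => 1 / b i) hApos hBpos
  have hm : ∀ i j, mx a b i j =
      Real.sqrt (a i) * Real.sqrt (b j) * Real.sqrt (1 + 1 / a i * (1 / b j)) := by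
    intro i j
    unfold mx
    rw [← Real.sqrt_mul (hapos i).le, ← Real.sqrt_mul (mul_pos (hapos i) (hbpos j)).le]
    congr 1
    have h1 := (hapos i).ne'
    have h2 := (hbpos j).ne'
    field_simp
  have hD : (mx a b).det =
      (Real.sqrt (a 0) * Real.sqrt (a 1) * Real.sqrt (a 2) *
        (Real.sqrt (b 0) * Real.sqrt (b 1) * Real.sqrt (b 2))) *
      (Matrix.of (fun i j : Fin 3 => Real.sqrt (1 + 1 / a i * (1 / b j)))).det := by
    rw [Matrix.det_fin_three, Matrix.det_fin_three]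
    simp only [hm, Matrix.of_apply]
    ring
  rw [hdet] at hD
  set A0 := 1 / a 0 with hA0
  set A1 := 1 / a 1 with hA1
  set A2 := 1 / a 2 with hA2
  set B0 := 1 / b 0 with hB0
  set B1 := 1 / b 1 with hB1
  set B2 := 1 / b 2 with hB2
  have pA0 : 0 < A0 := hApos 0
  have pA1 : 0 < A1 := hApos 1
  have pA2 : 0 < A2 := hApos 2
  have pB0 : 0 < B0 := hBpos 0
  have pB1 : 0 < B1 := hBpos 1
  have pB2 : 0 < B2 := hBpos 2
  have lA10 : A1 < A0 := one_div_lt_one_div_of_lt (hapos 0) ha1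
  have lA21 : A2 < A1 := one_div_lt_one_div_of_lt (hapos 1) ha2
  have lB10 : B1 < B0 := one_div_lt_one_div_of_lt (hbpos 0) hb1
  have lB21 : B2 < B1 := one_div_lt_one_div_of_lt (hbpos 1) hb2
  have uA0 : A0 ≤ 1 := by
    rw [hA0, div_le_one (hapos 0)]
    exact ha0
  have uB0 : B0 ≤ 1 := by
    rw [hB0, div_le_one (hbpos 0)]
    exact hb0
  -- the square roots
  have hs : ∀ x : ℝ, 0 < x → x ≤ 1 → 0 ≤ Real.sqrt (1 + x * B2) ∧
      Real.sqrt (1 + x * B2) ≤ 3 / 2 := by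
    intro x hx0 hx1
    refine ⟨Real.sqrt_nonneg _, ?_⟩
    rw [Real.sqrt_le_left (by norm_num)]
    have : x * B2 ≤ 1 * 1 := mul_le_mul hx1 (by linarith) pB2.le zero_le_one
    linarith
  obtain ⟨t00, t01⟩ := hs A0 pA0 uA0
  obtain ⟨t10, t11⟩ := hs A1 pA1 (by linarith)
  obtain ⟨t20, t21⟩ := hs A2 pA2 (by linarith)
  have hx : ∀ (x : ℝ) (i : Fin 3), 0 < x → 0 ≤ x * ka i ∧ x * ka i ≤ x / 2 := by
    intro x i hx
    refine ⟨mul_nonneg hx.le (hka i).1, ?_⟩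
    have := mul_le_mul_of_nonneg_left (hka i).2 hx.le
    linarith
  have hy : ∀ (x : ℝ) (i : Fin 3), 0 < x → 0 ≤ x ^ 2 * om i ∧ x ^ 2 * om i ≤ x ^ 2 / 8 := by
    intro x i hx
    refine ⟨mul_nonneg (sq_nonneg x) (hom i).1, ?_⟩
    have := mul_le_mul_of_nonneg_left (hom i).2 (sq_nonneg x)
    linarith
  obtain ⟨x00, x01⟩ := hx A0 0 pA0
  obtain ⟨x10, x11⟩ := hx A1 1 pA1
  obtain ⟨x20, x21⟩ := hx A2 2 pA2
  obtain ⟨y00, y01⟩ := hy A0 0 pA0
  obtain ⟨y10, y11⟩ := hy A1 1 pA1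
  obtain ⟨y20, y21⟩ := hy A2 2 pA2
  set P := A0 ^ 2 * A1 with hP
  have pP : 0 < P := by positivity
  have q01 : A0 * A1 ^ 2 ≤ P := by
    have h1 : A0 * A1 * A1 ≤ A0 * A1 * A0 :=
      mul_le_mul_of_nonneg_left lA10.le (mul_pos pA0 pA1).le
    calc A0 * A1 ^ 2 = A0 * A1 * A1 := by ring
      _ ≤ A0 * A1 * A0 := h1
      _ = P := by rw [hP]; ring
  have q02 : A0 * A2 ^ 2 ≤ P :=
    (mul_le_mul_of_nonneg_left (pow_le_pow_left₀ pA2.le lA21.le 2) pA0.le).trans q01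
  have q10 : A1 * A0 ^ 2 ≤ P := by
    rw [hP, mul_comm]
  have q12 : A1 * A2 ^ 2 ≤ P :=
    (mul_le_mul_of_nonneg_left (pow_le_pow_left₀ pA2.le (lA21.trans lA10).le 2) pA1.le).trans q10
  have q20 : A2 * A0 ^ 2 ≤ P :=
    (mul_le_mul_of_nonneg_right lA21.le (sq_nonneg A0)).trans q10
  have q21 : A2 * A1 ^ 2 ≤ P :=
    (mul_le_mul_of_nonneg_right (lA21.trans lA10).le (sq_nonneg A1)).trans q01
  obtain ⟨m1, m1'⟩ := term_le x00 x01 y10 y11 t20 t21 q01
  obtain ⟨m2, m2'⟩ := term_le x00 x01 y20 y21 t10 t11 q02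
  obtain ⟨m3, m3'⟩ := term_le x10 x11 y00 y01 t20 t21 q10
  obtain ⟨m4, m4'⟩ := term_le x10 x11 y20 y21 t00 t01 q12
  obtain ⟨m5, m5'⟩ := term_le x20 x21 y00 y01 t10 t11 q20
  obtain ⟨m6, m6'⟩ := term_le x20 x21 y10 y11 t00 t01 q21
  set E := (Matrix.of ![fun i => 1 / a i * ka i, fun i => (1 / a i) ^ 2 * om i,
          fun i => Real.sqrt (1 + 1 / a i * B2)]).det with hE
  have hE' : E = A0 * ka 0 * (A1 ^ 2 * om 1) * Real.sqrt (1 + A2 * B2) -
      A0 * ka 0 * (A2 ^ 2 * om 2) * Real.sqrt (1 + A1 * B2) -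
      A1 * ka 1 * (A0 ^ 2 * om 0) * Real.sqrt (1 + A2 * B2) +
      A1 * ka 1 * (A2 ^ 2 * om 2) * Real.sqrt (1 + A0 * B2) +
      A2 * ka 2 * (A0 ^ 2 * om 0) * Real.sqrt (1 + A1 * B2) -
      A2 * ka 2 * (A1 ^ 2 * om 1) * Real.sqrt (1 + A0 * B2) := by
    rw [hE, Matrix.det_fin_three]
    simp only [Matrix.of_apply, Matrix.cons_val_zero, Matrix.cons_val_one, Matrix.cons_val]
    rw [hA0, hA1, hA2]
  have hEabs : |E| < P := by
    rw [abs_lt, hE']
    clear_value P E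
    clear hE hE' hD hdet hm hs hx hy hka hom q01 q02 q10 q12 q20 q21
    constructor <;> linarith only [m1, m1', m2, m2', m3, m3', m4, m4', m5, m5', m6, m6', pP]
  -- the determinant
  set F := (B0 - B2) * (B1 - B2) * (B0 - B1) with hFdef
  have hF0 : 0 < F := mul_pos (mul_pos (by linarith) (by linarith)) (by linarith)
  have hF1 : F ≤ B0 ^ 2 * B1 := by
    have h1 : (B0 - B2) * (B1 - B2) ≤ B0 * B1 :=
      mul_le_mul (by linarith) (by linarith) (by linarith) pB0.le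
    have h2 : F ≤ B0 * B1 * B0 := mul_le_mul h1 (by linarith) (by linarith) (by positivity)
    linarith
  have hsq : (F * E) ^ 2 < (B0 ^ 2 * B1 * P) ^ 2 := by
    rw [← sq_abs (F * E)]
    have h1 : |F * E| < B0 ^ 2 * B1 * P := by
      rw [abs_mul, abs_of_pos hF0]
      calc F * |E| ≤ B0 ^ 2 * B1 * |E| := mul_le_mul_of_nonneg_right hF1 (abs_nonneg _)
        _ < B0 ^ 2 * B1 * P := mul_lt_mul_of_pos_left hEabs (by positivity)
    exact pow_lt_pow_left₀ h1 (abs_nonneg _) two_ne_zero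
  have hDsq : (mx a b).det ^ 2 = (a 0 * a 1 * a 2 * (b 0 * b 1 * b 2)) * (F * E) ^ 2 := by
    rw [hD]
    have s : ∀ x : ℝ, 0 < x → Real.sqrt x ^ 2 = x := fun x hx => Real.sq_sqrt hx.le
    have := s _ (hapos 0)
    have := s _ (hapos 1)
    have := s _ (hapos 2)
    have := s _ (hbpos 0)
    have := s _ (hbpos 1)
    have := s _ (hbpos 2)
    rw [mul_pow, mul_pow, mul_pow, mul_pow, mul_pow, mul_pow, s _ (hapos 0), s _ (hapos 1),
      s _ (hapos 2), s _ (hbpos 0), s _ (hbpos 1), s _ (hbpos 2)]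
  have ha0p := hapos 0
  have ha1p := hapos 1
  have ha2p := hapos 2
  have hb0p := hbpos 0
  have hb1p := hbpos 1
  have hb2p := hbpos 2
  rw [hDsq]
  have hfin : a 0 * a 1 * a 2 * (b 0 * b 1 * b 2) * (B0 ^ 2 * B1 * P) ^ 2 *
      ((a 0 * b 0) ^ 3 * (a 1 * b 1)) = a 2 * b 2 := by
    rw [hP, hA0, hA1, hB0, hB1]
    field_simp
  rw [← hfin]
  apply mul_lt_mul_of_pos_right _ (by positivity)
  exact mul_lt_mul_of_pos_left hsq (by positivity)

end Pool.Agent.W789.KT.C03
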