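import Mathlib
import Pool.Agent.W789.KT.Defs

set_option autoImplicit false

/-! Project KT: the gap principle from the determinant estimates. -/

namespace Pool.Agent.W789.KT.C04

open Pool.Agent.W789.KT

lemma inj3 (a : Fin 3 → ℝ) (h1 : a 0 < a 1) (h2 : a 1 < a 2) : Function.Injective a := by
  intro i j hij
  fin_cases i <;> fin_cases j <;> simp at hij ⊢ <;> linarith

lemma pos3 (a : Fin 3 → ℝ) (h0 : 1 ≤ a 0) (h1 : a 0 < a 1) (h2 : a 1 < a 2) (i : Fin 3) :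
    0 < a i := by
  fin_cases i <;> simp <;> linarith

lemma sqr (x : ℕ) (h : IsSquare x) : ∃ s : ℤ, Real.sqrt (x : ℝ) = (s : ℝ) := by
  obtain ⟨r, hr⟩ := h
  refine ⟨(r : ℤ), ?_⟩
  rw [hr]
  push_cast
  exact Real.sqrt_mul_self (Nat.cast_nonneg r)

theorem pf (hZ : DetNZStm) (hB : DetBoundStm) : GapStm := by
  intro a b ha0 ha1 ha2 hb0 hb1 hb2 hsq
  have hA0 : (1:ℝ) ≤ (a 0 : ℝ) := by exact_mod_cast ha0
  have hA1 : (a 0 : ℝ) < (a 1 : ℝ) := by exact_mod_cast ha1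
  have hA2 : (a 1 : ℝ) < (a 2 : ℝ) := by exact_mod_cast ha2
  have hB0 : (1:ℝ) ≤ (b 0 : ℝ) := by exact_mod_cast hb0
  have hB1 : (b 0 : ℝ) < (b 1 : ℝ) := by exact_mod_cast hb1
  have hB2 : (b 1 : ℝ) < (b 2 : ℝ) := by exact_mod_cast hb2
  have hs : ∀ i j, ∃ s : ℤ, Real.sqrt ((a i : ℝ) * (b j : ℝ) + 1) = (s : ℝ) := by
    intro i j
    obtain ⟨s, hs⟩ := sqr _ (hsq i j)
    refine ⟨s, ?_⟩
    push_cast at hs
    exact hs
  choose s hs using hs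
  have hm : mx (fun i => (a i : ℝ)) (fun i => (b i : ℝ)) =
      (Int.castRingHom ℝ).mapMatrix (Matrix.of s) := by
    ext i j
    simp only [mx, RingHom.mapMatrix_apply, Matrix.map_apply, Matrix.of_apply]
    exact hs i j
  have hd : (mx (fun i => (a i : ℝ)) (fun i => (b i : ℝ))).det = (((Matrix.of s).det : ℤ) : ℝ) := by
    rw [hm, ← RingHom.map_det]
    rfl
  have hnz := hZ (fun i => (a i : ℝ)) (fun i => (b i : ℝ)) (pos3 _ hA0 hA1 hA2)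
    (pos3 _ hB0 hB1 hB2) (inj3 _ hA1 hA2) (inj3 _ hB1 hB2)
  rw [hd] at hnz
  have hnz' : (Matrix.of s).det ≠ 0 := by
    intro h
    apply hnz
    rw [h]
    simp
  have h1 : (1:ℤ) ≤ (Matrix.of s).det ^ 2 := by
    have : 0 < (Matrix.of s).det ^ 2 := by positivity
    omega
  have h1' : (1:ℝ) ≤ (((Matrix.of s).det : ℤ) : ℝ) ^ 2 := by exact_mod_cast h1
  have hb := hB (fun i => (a i : ℝ)) (fun i => (b i : ℝ)) hA0 hA1 hA2 hB0 hB1 hB2
  rw [hd] at hb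
  have hpos : (0:ℝ) ≤ ((a 0 : ℝ) * (b 0 : ℝ)) ^ 3 * ((a 1 : ℝ) * (b 1 : ℝ)) := by positivity
  have hfin : ((a 0 : ℝ) * (b 0 : ℝ)) ^ 3 * ((a 1 : ℝ) * (b 1 : ℝ)) < (a 2 : ℝ) * (b 2 : ℝ) := by
    nlinarith
  exact_mod_cast hfin

end Pool.Agent.W789.KT.C04
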