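import Mathlib
import Pool.Agent.W789.KT.Defs

set_option autoImplicit false

/-! Project KT: seventeen elements, the case `a 10 ≤ b 10`. -/

namespace Pool.Agent.W789.KT.C05

open Pool.Agent.W789.KT

theorem step (hG : GapStm) (a b : Fin 17 → ℕ) (ha : StrictMono a) (hb : StrictMono b)
    (h0 : 0 < a 0) (h0' : 0 < b 0) (hs : ∀ i j, IsSquare (a i * b j + 1))
    (i0 i1 i2 j0 j1 j2 : Fin 17) (hi : i0 < i1) (hi' : i1 < i2) (hj : j0 < j1) (hj' : j1 < j2) :
    (a i0 * b j0) ^ 3 * (a i1 * b j1) < a i2 * b j2 := by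
  have h := hG ![a i0, a i1, a i2] ![b j0, b j1, b j2]
    (lt_of_lt_of_le h0 (ha.monotone (Fin.zero_le _))) (ha hi) (ha hi')
    (lt_of_lt_of_le h0' (hb.monotone (Fin.zero_le _))) (hb hj) (hb hj') (by
      intro i j
      fin_cases i <;> fin_cases j <;> exact hs _ _)
  exact h

theorem four (u v w : ℕ) (h : u ^ 3 * v < w) (huv : u ≤ v) : u ^ 4 < w := by
  refine lt_of_le_of_lt ?_ h
  calc u ^ 4 = u ^ 3 * u := by ring
    _ ≤ u ^ 3 * v := Nat.mul_le_mul_left _ huv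

theorem cube (H x y z p q : ℕ) (hp : 1 ≤ p) (hq : 1 ≤ q) (h : (p * x) ^ 3 * (q * y) < H * z)
    (hH : H ≤ y) (hy : 0 < y) : x ^ 3 < z := by
  have h1 : x ^ 3 * y ≤ (p * x) ^ 3 * (q * y) := by
    apply Nat.mul_le_mul
    · exact Nat.pow_le_pow_left (Nat.le_mul_of_pos_left x hp) 3
    · exact Nat.le_mul_of_pos_left y hq
  have h2 : H * z ≤ y * z := Nat.mul_le_mul_right z hH
  have h3 : x ^ 3 * y < z * y := by
    calc x ^ 3 * y ≤ (p * x) ^ 3 * (q * y) := h1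
      _ < H * z := h
      _ ≤ y * z := h2
      _ = z * y := Nat.mul_comm y z
  exact lt_of_mul_lt_mul_right h3 (Nat.zero_le y)

theorem pf (hT : TStm) (hG : GapStm) : HalfStm := by
  intro a b ha hb h0 h0' hs hab
  have gap := step hG a b ha hb h0 h0' hs
  have hu : ∀ i j : Fin 17, i ≤ j → a i * b i ≤ a j * b j := fun i j hij =>
    Nat.mul_le_mul (ha.monotone hij) (hb.monotone hij)
  have u4 : (a 2 * b 2) ^ 4 < a 4 * b 4 :=
    four _ _ _ (gap 2 3 4 2 3 4 (by decide) (by decide) (by decide) (by decide))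
      (hu 2 3 (by decide))
  have u6 : (a 4 * b 4) ^ 4 < a 6 * b 6 :=
    four _ _ _ (gap 4 5 6 4 5 6 (by decide) (by decide) (by decide) (by decide))
      (hu 4 5 (by decide))
  have u8 : (a 6 * b 6) ^ 4 < a 8 * b 8 :=
    four _ _ _ (gap 6 7 8 6 7 8 (by decide) (by decide) (by decide) (by decide))
      (hu 6 7 (by decide))
  have u10 : (a 8 * b 8) ^ 4 < a 10 * b 10 :=
    four _ _ _ (gap 8 9 10 8 9 10 (by decide) (by decide) (by decide) (by decide))
      (hu 8 9 (by decide))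
  have a1 : a 0 < a 1 := ha (by decide)
  have a2 : a 1 < a 2 := ha (by decide)
  have b1 : b 0 < b 1 := hb (by decide)
  have b2 : b 1 < b 2 := hb (by decide)
  have hb2 : 3 ≤ b 2 := by omega
  have ha2 : 3 ≤ a 2 := by omega
  generalize hU : a 2 * b 2 = U at u4
  have hHU : 3 * a 2 ≤ U := by
    rw [← hU, Nat.mul_comm (a 2) (b 2)]
    exact Nat.mul_le_mul_right _ hb2
  have hU1 : 1 ≤ U := by omega
  have p6 : U ^ 16 < a 6 * b 6 := by
    refine lt_of_le_of_lt ?_ u6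
    calc U ^ 16 = (U ^ 4) ^ 4 := by rw [← pow_mul]
      _ ≤ _ := Nat.pow_le_pow_left u4.le 4
  have p8 : U ^ 64 < a 8 * b 8 := by
    refine lt_of_le_of_lt ?_ u8
    calc U ^ 64 = (U ^ 16) ^ 4 := by rw [← pow_mul]
      _ ≤ _ := Nat.pow_le_pow_left p6.le 4
  have p10 : U ^ 256 < a 10 * b 10 := by
    refine lt_of_le_of_lt ?_ u10
    calc U ^ 256 = (U ^ 64) ^ 4 := by rw [← pow_mul]
      _ ≤ _ := Nat.pow_le_pow_left p8.le 4
  have hb10 : U ^ 128 < b 10 := by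
    have h1 : (U ^ 128) ^ 2 < b 10 ^ 2 := by
      calc (U ^ 128) ^ 2 = U ^ 256 := by rw [← pow_mul]
        _ < a 10 * b 10 := p10
        _ ≤ b 10 * b 10 := Nat.mul_le_mul_right _ hab
        _ = b 10 ^ 2 := by ring
    exact lt_of_pow_lt_pow_left₀ 2 (Nat.zero_le _) h1
  have hbig : 2 ^ 36 * (a 2) ^ 96 ≤ b 10 := by
    calc 2 ^ 36 * (a 2) ^ 96 ≤ 3 ^ 96 * (a 2) ^ 96 :=
          Nat.mul_le_mul_right _ (by norm_num)
      _ = (3 * a 2) ^ 96 := by rw [mul_pow]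
      _ ≤ U ^ 96 := Nat.pow_le_pow_left hHU 96
      _ ≤ U ^ 128 := Nat.pow_le_pow_right hU1 (by norm_num)
      _ ≤ b 10 := hb10.le
  have hHb10 : a 2 ≤ b 10 := by
    calc a 2 ≤ U := by omega
      _ = U ^ 1 := (pow_one U).symm
      _ ≤ U ^ 128 := Nat.pow_le_pow_right hU1 (by norm_num)
      _ ≤ b 10 := hb10.le
  have b11 : b 10 < b 11 := hb (by decide)
  have b13 : b 10 < b 13 := hb (by decide)
  have b15 : b 10 < b 15 := hb (by decide)
  have c12 : b 10 ^ 3 < b 12 :=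
    cube (a 2) (b 10) (b 11) (b 12) (a 0) (a 1) h0 (by omega)
      (gap 0 1 2 10 11 12 (by decide) (by decide) (by decide) (by decide)) (by omega) (by omega)
  have c14 : b 12 ^ 3 < b 14 :=
    cube (a 2) (b 12) (b 13) (b 14) (a 0) (a 1) h0 (by omega)
      (gap 0 1 2 12 13 14 (by decide) (by decide) (by decide) (by decide)) (by omega) (by omega)
  have c16 : b 14 ^ 3 < b 16 :=
    cube (a 2) (b 14) (b 15) (b 16) (a 0) (a 1) h0 (by omega)
      (gap 0 1 2 14 15 16 (by decide) (by decide) (by decide) (by decide)) (by omega) (by omega)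
  have hd : b 10 ^ 18 ≤ b 16 := by
    have e1 : b 10 ^ 9 ≤ b 14 := by
      calc b 10 ^ 9 = (b 10 ^ 3) ^ 3 := by rw [← pow_mul]
        _ ≤ b 12 ^ 3 := Nat.pow_le_pow_left c12.le 3
        _ ≤ b 14 := c14.le
    calc b 10 ^ 18 ≤ b 10 ^ 27 := Nat.pow_le_pow_right (by omega) (by norm_num)
      _ = (b 10 ^ 9) ^ 3 := by rw [← pow_mul]
      _ ≤ b 14 ^ 3 := Nat.pow_le_pow_left e1 3
      _ ≤ b 16 := c16.le
  refine hT ![a 0, a 1, a 2] (a 2) (b 10) (b 16) ?_ ?_ hbig hd ?_ ?_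
  · intro i j hij
    fin_cases i <;> fin_cases j <;> simp at hij ⊢ <;> omega
  · intro j
    fin_cases j
    · exact ⟨h0, by show a 0 ≤ a 2; omega⟩
    · exact ⟨by show 0 < a 1; omega, by show a 1 ≤ a 2; omega⟩
    · exact ⟨by show 0 < a 2; omega, le_refl _⟩
  · intro j
    fin_cases j <;> exact hs _ _
  · intro j
    fin_cases j <;> exact hs _ _

end Pool.Agent.W789.KT.C05
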