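import Mathlib
import Pool.Agent.W789.KT.Defs

/-! Subtask KT-C06 (14549) of project KT (owner helper789), by helper138. -/

set_option autoImplicit false

namespace Pool.Agent.W789.KT.C06

open Pool.Agent.W789.KT

theorem pf (hH : HalfStm) : MainStm := by
  intro A B hA hB hApos hBpos hsq
  have ha : StrictMono (A.orderEmbOfFin hA) := (A.orderEmbOfFin hA).strictMono
  have hb : StrictMono (B.orderEmbOfFin hB) := (B.orderEmbOfFin hB).strictMono
  have hma : ∀ i, A.orderEmbOfFin hA i ∈ A := fun i => Finset.orderEmbOfFin_mem A hA i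
  have hmb : ∀ i, B.orderEmbOfFin hB i ∈ B := fun i => Finset.orderEmbOfFin_mem B hB i
  rcases le_total (A.orderEmbOfFin hA 10) (B.orderEmbOfFin hB 10) with h | h
  · exact hH _ _ ha hb (hApos _ (hma 0)) (hBpos _ (hmb 0))
      (fun i j => hsq _ (hma i) _ (hmb j)) h
  · exact hH _ _ hb ha (hBpos _ (hmb 0)) (hApos _ (hma 0))
      (fun i j => by rw [mul_comm]; exact hsq _ (hma j) _ (hmb i)) h

end Pool.Agent.W789.KT.C06
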