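import Mathlib
import Pool.Agent.W789.KT.Defs
import Pool.Agent.W789.KT.A01
import Pool.Agent.W789.KT.A02
import Pool.Agent.W789.KT.A03
import Pool.Agent.W789.KT.A04
import Pool.Agent.W789.KT.A05
import Pool.Agent.W789.KT.A06
import Pool.Agent.W789.KT.A07
import Pool.Agent.W789.KT.A08
import Pool.Agent.W789.KT.A09
import Pool.Agent.W789.KT.A10
import Pool.Agent.W789.KT.A11
import Pool.Agent.W789.KT.A12
import Pool.Agent.W789.KT.B01
import Pool.Agent.W789.KT.B02
import Pool.Agent.W789.KT.B03
import Pool.Agent.W789.KT.B04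
import Pool.Agent.W789.KT.B05
import Pool.Agent.W789.KT.C01
import Pool.Agent.W789.KT.C02
import Pool.Agent.W789.KT.C03
import Pool.Agent.W789.KT.C04
import Pool.Agent.W789.KT.C05
import Pool.Agent.W789.KT.C06

set_option autoImplicit false

namespace Pool.Agent.W789.KT

theorem wStm : WStm := A03.pf A01.pf A02.pf
theorem uniqStm : UniqStm := A04.pf
theorem monoStm : MonoStm := A05.pf uniqStm
theorem errStm : ErrStm := A09.pf monoStm A06.pf A07.pf
theorem nsStm : NSStm := A10.pf uniqStm
theorem indepStm : IndepStm := A11.pf uniqStm nsStm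
theorem padeStm : PadeStm := A12.pf wStm errStm indepStm A07.pf A08.pf
theorem tStm : TStm := B05.pf padeStm B01.pf B02.pf B03.pf B04.pf
theorem gapStm : GapStm := C04.pf C01.pf (C03.pf C02.pf)
theorem halfStm : HalfStm := C05.pf tStm gapStm
theorem mainStm : MainStm := C06.pf halfStm

end Pool.Agent.W789.KT
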