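import Mathlib
import Pool.Agent.W789.KT.Defs

set_option autoImplicit false

namespace Pool.Agent.W789.KT.B04

open Pool.Agent.W789.KT

theorem pf : NumBStm := by
  intro H e d k p hH hk he hd hp hpH hde
  have hHr : (1 : ℝ) ≤ H := by exact_mod_cast hH
  have hpr : (1 : ℝ) ≤ p := by exact_mod_cast hp
  have hdr : (1 : ℝ) ≤ d := by exact_mod_cast hd
  have hpHr : (p : ℝ) ≤ (H : ℝ) ^ 3 := by exact_mod_cast hpH
  have her : (2 : ℝ) ^ 36 * (H : ℝ) ^ 96 ≤ e := by exact_mod_cast he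
  have hder : (e : ℝ) ^ (5 * k + 3) < (d : ℝ) ^ 2 := by exact_mod_cast hde
  have he0 : (0 : ℝ) < e := by
    have : (0 : ℝ) < (2 : ℝ) ^ 36 * (H : ℝ) ^ 96 := by positivity
    linarith
  set s : ℝ := Real.sqrt ((e : ℝ) / d) with hs
  have hs0 : 0 ≤ s := Real.sqrt_nonneg _
  have hs2 : s ^ 2 = (e : ℝ) / d := Real.sq_sqrt (by positivity)
  set Y : ℝ := 12 * ((128 * ((H : ℝ) ^ 2) ^ 9 * ((p : ℝ) * e)) ^ k * ((p : ℝ) * s)) with hY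
  have hY0 : 0 ≤ Y := by positivity
  have key : Y ^ 4 < 1 := by
    have h1 : Y ^ 4 = 20736 * (p : ℝ) ^ 4 * ((128 * ((H : ℝ) ^ 2) ^ 9 * ((p : ℝ) * e)) ^ 4) ^ k *
        ((e : ℝ) / d) ^ 2 := by
      rw [hY, ← hs2]
      generalize (128 * ((H : ℝ) ^ 2) ^ 9 * ((p : ℝ) * e)) = W
      rw [← pow_mul, mul_comm 4 k, pow_mul]
      ring
    have h2 : (128 * ((H : ℝ) ^ 2) ^ 9 * ((p : ℝ) * e)) ≤ 512 * (H : ℝ) ^ 24 * e := by
      have h3 : (p : ℝ) * e ≤ (H : ℝ) ^ 3 * e := by gcongr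
      calc (128 * ((H : ℝ) ^ 2) ^ 9 * ((p : ℝ) * e)) ≤ 128 * ((H : ℝ) ^ 2) ^ 9 * ((H : ℝ) ^ 3 * e) := by
            gcongr
        _ = 128 * ((H : ℝ) ^ 21) * e := by ring
        _ ≤ 512 * (H : ℝ) ^ 24 * e := by
            have h4 : (H : ℝ) ^ 21 ≤ (H : ℝ) ^ 24 := pow_le_pow_right₀ hHr (by norm_num)
            gcongr
            norm_num
    have h5 : (128 * ((H : ℝ) ^ 2) ^ 9 * ((p : ℝ) * e)) ^ 4 ≤ (e : ℝ) ^ 5 := by
      calc (128 * ((H : ℝ) ^ 2) ^ 9 * ((p : ℝ) * e)) ^ 4 ≤ (512 * (H : ℝ) ^ 24 * e) ^ 4 := by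
            gcongr
        _ = ((2 : ℝ) ^ 36 * (H : ℝ) ^ 96) * (e : ℝ) ^ 4 := by ring
        _ ≤ e * (e : ℝ) ^ 4 := by gcongr
        _ = (e : ℝ) ^ 5 := by ring
    have h6 : ((128 * ((H : ℝ) ^ 2) ^ 9 * ((p : ℝ) * e)) ^ 4) ^ k ≤ (e : ℝ) ^ (5 * k) := by
      rw [pow_mul]
      gcongr
    have h7 : 20736 * (p : ℝ) ^ 4 ≤ e := by
      calc 20736 * (p : ℝ) ^ 4 ≤ 20736 * ((H : ℝ) ^ 3) ^ 4 := by gcongr
        _ = 20736 * (H : ℝ) ^ 12 := by ring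
        _ ≤ (2 : ℝ) ^ 36 * (H : ℝ) ^ 96 := by
            have h4 : (H : ℝ) ^ 12 ≤ (H : ℝ) ^ 96 := pow_le_pow_right₀ hHr (by norm_num)
            gcongr
            norm_num
        _ ≤ e := her
    rw [h1]
    calc 20736 * (p : ℝ) ^ 4 * ((128 * ((H : ℝ) ^ 2) ^ 9 * ((p : ℝ) * e)) ^ 4) ^ k *
        ((e : ℝ) / d) ^ 2 ≤ (e : ℝ) * (e : ℝ) ^ (5 * k) * ((e : ℝ) / d) ^ 2 := by gcongr
      _ = (e : ℝ) ^ (5 * k + 3) / (d : ℝ) ^ 2 := by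
          rw [div_pow]; ring
      _ < 1 := by
          rw [div_lt_one (by positivity)]
          exact hder
  have hY1 : Y < 1 := by
    by_contra h
    push Not at h
    exact absurd (one_le_pow₀ h (n := 4)) (not_le.2 key)
  have hfin : 3 * (2 * (128 * ((H : ℝ) ^ 2) ^ 9 * ((p : ℝ) * e)) ^ k * ((p : ℝ) * s)) = Y / 2 := by
    rw [hY]; ring
  rw [hfin]
  linarith

end Pool.Agent.W789.KT.B04
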